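import Pool.Agent.Y831.RC3.RunCnt

set_option autoImplicit false
set_option linter.unusedVariables false

/-! # Abundance of the runs of record order -/

namespace Pool.Agent.Y831.RC

open Finset Filter Pool.Agent.H256R2.SC

open scoped Classical

theorem ev_ab (B t ε b : ℝ) (hB : 0 ≤ B) (ht : 0 < t) (hε : 0 < ε) (hε4 : ε ≤ 1 / 4) :
    ∃ L₀ : ℝ, ∀ L : ℝ, L₀ ≤ L →
    5 ≤ L ∧ 1 ≤ Real.log L ∧ L / (Real.log L) ^ (B + t) ≤ ε / 64 * L ∧
    2 * (L / (Real.log L) ^ (B + t)) + L ^ (1 - ε / 64) + 2 ≤ L / (Real.log L) ^ B ∧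
    L ^ b ≤ 1 / 2 * Real.exp L := by
  have t1 := Real.tendsto_log_atTop
  have h0 : ∀ᶠ L : ℝ in atTop, 5 ≤ L := eventually_ge_atTop _
  have h1 : ∀ᶠ L : ℝ in atTop, 1 ≤ Real.log L := t1.eventually_ge_atTop _
  have h2 : ∀ᶠ L : ℝ in atTop, L / (Real.log L) ^ (B + t) ≤ ε / 64 * L := by
    have e1 : ∀ᶠ x : ℝ in atTop, 64 / ε ≤ x ^ (B + t) :=
      (tendsto_rpow_atTop (show 0 < B + t by linarith)).eventually_ge_atTop _
    filter_upwards [t1.eventually e1, h0, h1] with L hL hL5 hl1
    have hp : 0 < (Real.log L) ^ (B + t) := by positivity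
    rw [div_le_iff₀ hp]
    rw [div_le_iff₀ hε] at hL
    calc L = L * 1 := (mul_one L).symm
      _ ≤ L * ((Real.log L) ^ (B + t) * ε / 64) := by
          apply mul_le_mul_of_nonneg_left _ (by linarith)
          linarith
      _ = _ := by ring
  have h3 : ∀ᶠ L : ℝ in atTop,
      2 * (L / (Real.log L) ^ (B + t)) + L ^ (1 - ε / 64) + 2 ≤ L / (Real.log L) ^ B := by
    have e1 : ∀ᶠ x : ℝ in atTop, 4 ≤ x ^ t := (tendsto_rpow_atTop ht).eventually_ge_atTop _
    have e2 : (fun L : ℝ => (Real.log L) ^ B) =o[atTop] (fun L : ℝ => L ^ (ε / 64)) :=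
      isLittleO_log_rpow_rpow_atTop B (by positivity)
    have e3 := e2.def (show (0:ℝ) < 1 / 4 by norm_num)
    have e5 : (fun L : ℝ => (Real.log L) ^ B) =o[atTop] (fun L : ℝ => L ^ (1:ℝ)) :=
      isLittleO_log_rpow_rpow_atTop B one_pos
    have e6 := e5.def (show (0:ℝ) < 1 / 8 by norm_num)
    filter_upwards [t1.eventually e1, e3, e6, h0, h1] with L g1 g2 g3 hL5 hl1
    have hL0 : 0 < L := by linarith
    have hl0 : 0 < Real.log L := by linarith
    have hp : 0 < (Real.log L) ^ B := Real.rpow_pos_of_pos hl0 _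
    have hpt : 0 < (Real.log L) ^ t := Real.rpow_pos_of_pos hl0 _
    rw [Real.norm_eq_abs, Real.norm_eq_abs, abs_of_pos hp,
      abs_of_nonneg (Real.rpow_nonneg hL0.le _)] at g2 g3
    rw [Real.rpow_one] at g3
    have e7 : 2 * (L / (Real.log L) ^ (B + t)) ≤ 1 / 2 * (L / (Real.log L) ^ B) := by
      rw [Real.rpow_add hl0, ← div_div]
      have : L / (Real.log L) ^ B / (Real.log L) ^ t ≤ L / (Real.log L) ^ B / 4 :=
        div_le_div_of_nonneg_left (by positivity) (by norm_num) g1
      linarith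
    have e8 : L ^ (1 - ε / 64) ≤ 1 / 4 * (L / (Real.log L) ^ B) := by
      rw [mul_div_assoc', le_div_iff₀ hp]
      calc L ^ (1 - ε / 64) * (Real.log L) ^ B ≤ L ^ (1 - ε / 64) * (1 / 4 * L ^ (ε / 64)) :=
            mul_le_mul_of_nonneg_left g2 (Real.rpow_nonneg hL0.le _)
        _ = 1 / 4 * (L ^ (1 - ε / 64) * L ^ (ε / 64)) := by ring
        _ = 1 / 4 * L := by
            rw [← Real.rpow_add hL0]
            have : 1 - ε / 64 + ε / 64 = 1 := by ring
            rw [this, Real.rpow_one]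
    have e9 : 2 ≤ 1 / 4 * (L / (Real.log L) ^ B) := by
      rw [mul_div_assoc', le_div_iff₀ hp]
      linarith
    linarith
  have h4 : ∀ᶠ L : ℝ in atTop, L ^ b ≤ 1 / 2 * Real.exp L := by
    have e1 := tendsto_rpow_mul_exp_neg_mul_atTop_nhds_zero b 1 one_pos
    have e2 := e1.eventually (gt_mem_nhds (show (0:ℝ) < 1 / 2 by norm_num))
    filter_upwards [e2] with L hL
    have h5 : L ^ b * Real.exp (-1 * L) * Real.exp L ≤ 1 / 2 * Real.exp L :=
      mul_le_mul_of_nonneg_right hL.le (Real.exp_pos _).le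
    rwa [mul_assoc, ← Real.exp_add, neg_one_mul, neg_add_cancel, Real.exp_zero, mul_one] at h5
  exact Filter.eventually_atTop.1 (h0.and (h1.and (h2.and (h3.and h4))))

/-- in every interval of length `X` there are at least `X exp (- log X / (log log X)^B)` starting
points of runs of `c f(X)` integers with a prime factor at most `X^δ`, if `2 (2 + B) c < 1` -/
theorem abund (B c δ : ℝ) (hB : 0 ≤ B) (hc : 0 < c) (hBc : 2 * (2 + B) * c < 1) (hδ : 0 < δ) :
    ∃ X₀ : ℝ, ∀ X : ℝ, X₀ ≤ X → ∀ M : ℝ,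
      X * Real.exp (-(Real.log X / (Real.log (Real.log X)) ^ B)) ≤
        ((RunSet M X (c * ff X) (X ^ δ)).ncard : ℝ) := by
  obtain ⟨t, ht, ht4, htδ, htc⟩ : ∃ t : ℝ, 0 < t ∧ t ≤ 1 / 4 ∧ t / 8 ≤ δ ∧
      (2 + (B + t)) * (1 + t) * c < 1 / 2 - t := by
    set s := 1 / 2 - (2 + B) * c with hs
    have hs0 : 0 < s := by rw [hs]; linarith
    set D := (4 + B) * c + 1 with hD
    have hD0 : 0 < D := by positivity
    refine ⟨min (1 / 4) (min δ (s / (2 * D))), ?_, min_le_left _ _, ?_, ?_⟩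
    · exact lt_min (by norm_num) (lt_min hδ (by positivity))
    · have : min (1 / 4) (min δ (s / (2 * D))) ≤ δ := (min_le_right _ _).trans (min_le_left _ _)
      linarith
    · set t := min (1 / 4) (min δ (s / (2 * D))) with ht
      have h1 : t ≤ s / (2 * D) := (min_le_right _ _).trans (min_le_right _ _)
      have h2 : t ≤ 1 / 4 := min_le_left _ _
      have h3 : 0 < t := lt_min (by norm_num) (lt_min hδ (by positivity))
      have h4 : t * D ≤ s / 2 := by
        rw [le_div_iff₀ (by positivity)] at h1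
        linarith
      have h5 : (2 + (B + t)) * (1 + t) * c + t = (2 + B) * c + t * ((3 + B + t) * c + 1) := by ring
      have h6 : t * ((3 + B + t) * c + 1) ≤ t * D := by
        apply mul_le_mul_of_nonneg_left _ h3.le
        rw [hD]
        have : (3 + B + t) * c ≤ (4 + B) * c := mul_le_mul_of_nonneg_right (by linarith) hc.le
        linarith
      linarith
  obtain ⟨X₁, hX₁⟩ := covc (1 + t) (by linarith) (by linarith) t ht ht4
  obtain ⟨X₂, hX₂⟩ := survB (B + t) (1 + t) c (1 / 2 - t) (by linarith) (by linarith) (by linarith)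
    hc htc
  obtain ⟨X₃, hX₃⟩ := ev_run (1 + t) c t (by linarith) hc ht (by linarith)
  obtain ⟨L₀, hL₀⟩ := ev_ab B t t (1 + t) hB ht ht ht4
  refine ⟨max (max X₁ X₂) (max X₃ (Real.exp L₀)), fun X hX M => ?_⟩
  have h1 := hX₁ X ((le_max_left _ _).trans ((le_max_left _ _).trans hX))
  obtain ⟨a, ha1, ha2⟩ := hX₂ X ((le_max_right _ _).trans ((le_max_left _ _).trans hX))
  obtain ⟨g0, g1, g2, g3, g4, g5, g6⟩ := hX₃ X ((le_max_left _ _).trans ((le_max_right _ _).trans hX))
  have hXL : Real.exp L₀ ≤ X := (le_max_right _ _).trans ((le_max_right _ _).trans hX)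
  have hLL : L₀ ≤ Real.log X := by
    rw [← Real.log_exp L₀]
    exact Real.log_le_log (Real.exp_pos _) hXL
  obtain ⟨k0, k1, k2, k3, k4⟩ := hL₀ (Real.log X) hLL
  have hX0 : 0 < X := by linarith
  set L := Real.log X with hL
  set l := Real.log L with hl
  have hXe : X = Real.exp L := (Real.exp_log hX0).symm
  set x := L / l ^ (B + t) with hx
  have hl0 : 0 < l := by linarith
  have hx0 : 0 ≤ x := by rw [hx]; positivity
  have hxL : x ≤ L := by
    rw [hx]
    exact div_le_self (by linarith) (Real.one_le_rpow k1 (by linarith))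
  have hFX : 0 ≤ X - c * ff X := by
    by_contra h
    push Not at h
    have h2 : (X - c * ff X) / Real.exp (2 * (t / 64 * L)) < 0 :=
      div_neg_of_neg_of_pos h (Real.exp_pos _)
    have h3 : 0 ≤ X ^ (1 - t / 8) := Real.rpow_nonneg (by linarith) _
    linarith
  have hprim := primorial_le_exp x hx0
  have hPpos : (0:ℝ) < (primorial ⌊x⌋₊ : ℝ) := by
    exact_mod_cast primorial_pos _
  have hlen1 : (X - c * ff X) / Real.exp (2 * x) ≤ (X - c * ff X) / (primorial ⌊x⌋₊ : ℝ) :=
    div_le_div_of_nonneg_left hFX hPpos hprim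
  have hlen2 : (X - c * ff X) / Real.exp (2 * (t / 64 * L)) ≤ (X - c * ff X) / Real.exp (2 * x) := by
    apply div_le_div_of_nonneg_left hFX (Real.exp_pos _)
    apply Real.exp_le_exp.2
    linarith
  have hmain := run_cnt h1 hx0 (hxL.trans g4) ha1 g1 g2
    (ha2 ⌊c * ff X⌋₊ (Nat.floor_le g1)) M (by linarith) ((k2.trans g5))
  have hfin : X * Real.exp (-(L / l ^ B)) ≤
      ((X - c * ff X) / (primorial ⌊x⌋₊ : ℝ) - 1) * Real.exp (-L ^ (1 - t / 64)) := by
    have e1 : X / 2 ≤ X - c * ff X := by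
      rw [← hXe] at k4
      linarith
    have e2 : X / 2 * Real.exp (-(2 * x)) ≤ (X - c * ff X) / (primorial ⌊x⌋₊ : ℝ) := by
      refine le_trans ?_ hlen1
      rw [Real.exp_neg, ← div_eq_mul_inv]
      exact div_le_div_of_nonneg_right e1 (Real.exp_pos _).le
    have e3 : (8:ℝ) ≤ X * Real.exp (-(2 * x)) := by
      rw [hXe, ← Real.exp_add]
      have e4 : L / 2 ≤ L + -(2 * x) := by
        have : t / 64 * L ≤ 1 / 256 * L := mul_le_mul_of_nonneg_right (by linarith) (by linarith)
        linarith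
      have e5 : (8:ℝ) ≤ Real.exp (L / 2) := by
        have h6 : Real.exp (5 / 2) ≤ Real.exp (L / 2) := Real.exp_le_exp.2 (by linarith)
        have h7 : (8:ℝ) ≤ Real.exp (5 / 2) := by
          have h8 : Real.exp (5 / 2) = Real.exp 1 * Real.exp 1 * Real.exp (1 / 2) := by
            rw [← Real.exp_add, ← Real.exp_add]
            norm_num
          have h9 := Real.exp_one_gt_d9
          have h10 := Real.add_one_le_exp (1 / 2 : ℝ)
          rw [h8]
          have h11 : (2.7:ℝ) * 2.7 ≤ Real.exp 1 * Real.exp 1 := by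
            apply mul_le_mul <;> linarith
          nlinarith
        linarith
      exact e5.trans (Real.exp_le_exp.2 e4)
    have e6 : X * Real.exp (-(2 * x)) * Real.exp (-2) ≤
        (X - c * ff X) / (primorial ⌊x⌋₊ : ℝ) - 1 := by
      have e7 : Real.exp (-2) ≤ 3 / 8 := by
        rw [Real.exp_neg, inv_le_comm₀ (Real.exp_pos _) (by norm_num)]
        have := Real.add_one_le_exp (2:ℝ)
        linarith
      have e8 : 0 ≤ X * Real.exp (-(2 * x)) := by positivity
      nlinarith
    calc X * Real.exp (-(L / l ^ B)) ≤ X * Real.exp (-(2 * x) + -2 + -L ^ (1 - t / 64)) := by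
          apply mul_le_mul_of_nonneg_left _ hX0.le
          apply Real.exp_le_exp.2
          linarith
      _ = X * Real.exp (-(2 * x)) * Real.exp (-2) * Real.exp (-L ^ (1 - t / 64)) := by
          rw [Real.exp_add, Real.exp_add]
          ring
      _ ≤ _ := mul_le_mul_of_nonneg_right e6 (Real.exp_pos _).le
  have hmono : ((RunSet M X (c * ff X) (X ^ (t / 8))).ncard : ℝ) ≤
      ((RunSet M X (c * ff X) (X ^ δ)).ncard : ℝ) := by
    exact_mod_cast RunSet_mono M X (c * ff X) _ _ g1 (Real.rpow_le_rpow_of_exponent_le g0 htδ)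
  exact (hfin.trans hmain).trans hmono

end Pool.Agent.Y831.RC
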