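import Pool.Agent.Y831.RC3.Prof2
import Pool.Agent.Y831.RC3.Core4
import Pool.Agent.Y831.RC2.CovTwo

set_option autoImplicit false
set_option linter.unusedSectionVars false

/-! # The optimal profile for the primes in an interval, sets with few elements -/

namespace Pool.Agent.Y831.RC

open Finset Filter Pool.Agent.H256R2.SC

open scoped Classical

theorem profileT_PS (m₀ : ℕ) (y z v₀ A₀ B₁ G₂ : ℝ) (hy : 2 ≤ y) (hz : 1 < z) (hv₀ : 0 < v₀)
    (hv₀z : v₀ ≤ Real.log z) (hA₀ : 0 < A₀)
    (hB : ∑ s : Finset (Fin (PS y z ∅).card) with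
      Real.log (∏ i ∈ s, ((emb (PS y z ∅) i : ℕ) : ℝ)) < v₀,
      ∏ i ∈ s, 1 / ((emb (PS y z ∅) i : ℕ) : ℝ) ≤ B₁)
    (hG : ∑ i, 1 / ((emb (PS y z ∅) i : ℕ) : ℝ) ≤ G₂)
    (hA : A₀ ≤ WW y / (1 + 2 / y) * Real.log (Real.log z / v₀) - B₁ / v₀ -
      Real.exp (3 * G₂ - m₀) / v₀)
    (hBA : B₁ ≤ A₀ * v₀) :
    ∃ h, HypS (fun i => ((emb (PS y z ∅) i : ℕ) : ℝ)) (fun i => 1 / ((emb (PS y z ∅) i : ℕ) : ℝ))
      h z (1 / A₀) v₀ ∧ ∀ s, h s ≠ 0 → s.card ≤ m₀ := by
  have hzpos : 0 < z := by linarith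
  set PP : Finset ℕ := PS y z ∅ with hPP
  set P : Fin PP.card → ℝ := fun i => ((emb PP i : ℕ) : ℝ) with hP
  have hP1 : ∀ i, 1 < P i := fun i => by
    have := (PS_mem hzpos.le (emb_mem PP i)).2.1
    have h2 : (1:ℝ) < y := by linarith
    exact h2.trans this
  have hP0 : ∀ i, 0 < P i := fun i => zero_lt_one.trans (hP1 i)
  have hgpos : ∀ s : Finset (Fin PP.card), 0 < ∏ i ∈ s, 1 / P i := fun s =>
    Finset.prod_pos fun i _ => by have := hP0 i; positivity
  have hppos : ∀ s : Finset (Fin PP.card), 0 < ∏ i ∈ s, P i := fun s =>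
    Finset.prod_pos fun i _ => hP0 i
  have hB1 : 1 ≤ B₁ := by
    refine le_trans ?_ hB
    have e : (∏ i ∈ (∅ : Finset (Fin PP.card)), 1 / P i) = 1 := Finset.prod_empty
    rw [← e]
    refine Finset.single_le_sum (f := fun s : Finset (Fin PP.card) => ∏ i ∈ s, 1 / P i)
      (fun s _ => (hgpos s).le) ?_
    rw [Finset.mem_filter]
    exact ⟨Finset.mem_univ _, by simpa using hv₀⟩
  have hy2 : 0 < 1 + 2 / y := by positivity
  refine exists_hT m₀ P (fun i => 1 / P i) hP1 (fun i => by have := hP0 i; positivity) z A₀ v₀ B₁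
    hz hA₀ hv₀ (hA.trans ?_) hB hBA
  set S : Finset (Finset (Fin PP.card)) := univ.filter (fun s : Finset (Fin PP.card) =>
    (s.Nonempty ∧ v₀ ≤ Real.log (∏ i ∈ s, P i)) ∧ ∏ i ∈ s, P i ≤ z) with hS
  -- summation by parts, for the scaled weights
  have hmain : (WW y / (1 + 2 / y) / B₁) * Real.log (Real.log z / v₀) - 1 / v₀ ≤
      ∑ s ∈ S, ((∏ i ∈ s, 1 / P i) / B₁) / Real.log (∏ i ∈ s, P i) := by
    refine alog_lower S (fun s => (∏ i ∈ s, 1 / P i) / B₁) (fun s => Real.log (∏ i ∈ s, P i))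
      (fun s _ => div_nonneg (hgpos s).le (by linarith)) ?_ _ v₀ (Real.log z) hv₀ hv₀z ?_
    · intro s hs
      have := (Finset.mem_filter.1 hs).2.1.2
      linarith
    · intro v hv1 hv2
      have h1 := A_sharp y z (Real.exp v) hy (Real.one_le_exp (by linarith))
        (by rw [← Real.exp_log hzpos]; exact Real.exp_le_exp.2 hv2)
      rw [Real.log_exp, ← hPP, ← Asum_enum PP (Real.exp v)] at h1
      have h2 : WW y / (1 + 2 / y) * v ≤
          1 + Asum P (fun i => 1 / ((emb PP i : ℕ) : ℝ)) (Real.exp v) := by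
        rw [div_mul_eq_mul_div, div_le_iff₀ hy2, mul_comm _ (1 + 2 / y)]
        exact h1
      have h3 : 1 + Asum P (fun i => 1 / ((emb PP i : ℕ) : ℝ)) (Real.exp v) ≤
          B₁ + ∑ s ∈ S with Real.log (∏ i ∈ s, P i) ≤ v, ∏ i ∈ s, 1 / P i := by
        have h4 : 1 + Asum P (fun i => 1 / ((emb PP i : ℕ) : ℝ)) (Real.exp v) =
            ∑ s : Finset (Fin PP.card) with Real.log (∏ i ∈ s, P i) ≤ v, ∏ i ∈ s, 1 / P i := by
          have e1 : (univ.filter (fun s : Finset (Fin PP.card) => Real.log (∏ i ∈ s, P i) ≤ v)) =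
              insert ∅ (univ.filter (fun s : Finset (Fin PP.card) =>
                s.Nonempty ∧ ∏ i ∈ s, P i ≤ Real.exp v)) := by
            ext s
            rw [Finset.mem_insert, Finset.mem_filter, Finset.mem_filter,
              Real.log_le_iff_le_exp (hppos s)]
            constructor
            · intro hs
              rcases Finset.eq_empty_or_nonempty s with he | he
              · exact Or.inl he
              · exact Or.inr ⟨hs.1, he, hs.2⟩
            · rintro (rfl | hs)
              · refine ⟨Finset.mem_univ _, ?_⟩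
                rw [Finset.prod_empty]
                exact Real.one_le_exp (by linarith)
              · exact ⟨hs.1, hs.2.2⟩
          rw [e1, Finset.sum_insert (by simp), Finset.prod_empty]
          rfl
        rw [h4, ← Finset.sum_filter_add_sum_filter_not _
          (fun s : Finset (Fin PP.card) => Real.log (∏ i ∈ s, P i) < v₀)]
        apply add_le_add
        · refine le_trans ?_ hB
          apply Finset.sum_le_sum_of_subset_of_nonneg
          · intro s hs
            rw [Finset.mem_filter, Finset.mem_filter] at hs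
            rw [Finset.mem_filter]
            exact ⟨Finset.mem_univ _, hs.2⟩
          · intro s _ _
            exact (hgpos s).le
        · apply Finset.sum_le_sum_of_subset_of_nonneg
          · intro s hs
            rw [Finset.mem_filter, Finset.mem_filter] at hs
            rw [Finset.mem_filter, hS, Finset.mem_filter]
            have h5 := not_lt.1 hs.2
            refine ⟨⟨Finset.mem_univ _, ⟨?_, h5⟩, ?_⟩, hs.1.2⟩
            · rw [Finset.nonempty_iff_ne_empty]
              rintro rfl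
              simp at h5
              linarith
            · rw [← Real.log_le_log_iff (hppos s) hzpos]
              exact hs.1.2.trans hv2
          · intro s _ _
            exact (hgpos s).le
      have h5 : WW y / (1 + 2 / y) * v - B₁ ≤
          ∑ s ∈ S with Real.log (∏ i ∈ s, P i) ≤ v, ∏ i ∈ s, 1 / P i := by linarith
      rw [← Finset.sum_div, le_div_iff₀ (by linarith)]
      refine le_trans (le_of_eq ?_) h5
      field_simp
  have h6 : WW y / (1 + 2 / y) * Real.log (Real.log z / v₀) - B₁ / v₀ =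
      ((WW y / (1 + 2 / y) / B₁) * Real.log (Real.log z / v₀) - 1 / v₀) * B₁ := by
    field_simp
  have h7 : WW y / (1 + 2 / y) * Real.log (Real.log z / v₀) - B₁ / v₀ ≤
      ∑ s ∈ S, (∏ i ∈ s, 1 / P i) / Real.log (∏ i ∈ s, P i) := by
    rw [h6]
    refine (mul_le_mul_of_nonneg_right hmain (by linarith)).trans (le_of_eq ?_)
    rw [Finset.sum_mul]
    refine Finset.sum_congr rfl fun s _ => ?_
    have : B₁ ≠ 0 := by linarith
    field_simp
  have h8 := Finset.sum_filter_add_sum_filter_not S (fun s : Finset (Fin PP.card) => s.card ≤ m₀)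
    (fun s => (∏ i ∈ s, 1 / P i) / Real.log (∏ i ∈ s, P i))
  have h9 : ∑ s ∈ S with ¬ s.card ≤ m₀, (∏ i ∈ s, 1 / P i) / Real.log (∏ i ∈ s, P i) ≤
      Real.exp (3 * G₂ - m₀) / v₀ := by
    calc ∑ s ∈ S with ¬ s.card ≤ m₀, (∏ i ∈ s, 1 / P i) / Real.log (∏ i ∈ s, P i)
        ≤ ∑ s ∈ S with ¬ s.card ≤ m₀, (∏ i ∈ s, 1 / P i) / v₀ := by
          apply Finset.sum_le_sum
          intro s hs
          have h10 := (Finset.mem_filter.1 (Finset.mem_filter.1 hs).1).2.1.2
          exact div_le_div_of_nonneg_left (hgpos s).le hv₀ h10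
      _ = (∑ s ∈ S with ¬ s.card ≤ m₀, ∏ i ∈ s, 1 / P i) / v₀ := by rw [Finset.sum_div]
      _ ≤ (∑ s : Finset (Fin PP.card) with ¬ s.card ≤ m₀, ∏ i ∈ s, 1 / P i) / v₀ := by
          apply div_le_div_of_nonneg_right _ hv₀.le
          apply Finset.sum_le_sum_of_subset_of_nonneg
          · intro s hs
            rw [Finset.mem_filter] at hs ⊢
            exact ⟨Finset.mem_univ _, hs.2⟩
          · intro s _ _
            exact (hgpos s).le
      _ ≤ _ := by
          apply div_le_div_of_nonneg_right _ hv₀.le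
          exact loss_le (fun i => 1 / P i) (fun i => by have := hP0 i; positivity) m₀ G₂ hG
  have h10 : ∑ s ∈ S with s.card ≤ m₀, (∏ i ∈ s, 1 / P i) / Real.log (∏ i ∈ s, P i) =
      ∑ s : Finset (Fin PP.card) with ((s.Nonempty ∧ v₀ ≤ Real.log (∏ i ∈ s, P i)) ∧
        ∏ i ∈ s, P i ≤ z) ∧ s.card ≤ m₀, (∏ i ∈ s, 1 / P i) / Real.log (∏ i ∈ s, P i) := by
    rw [hS, Finset.filter_filter]
  rw [← h10]
  linarith

end Pool.Agent.Y831.RC
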