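import Pool.Agent.Y831.RC2.Core3

set_option autoImplicit false
set_option linter.unusedSectionVars false

/-! # A pointwise bound for the sieve weight of the two blocks -/

namespace Pool.Agent.Y831.RC

open Finset Pool.Agent.H256R2.SC

variable {n n₁ n₂ : ℕ} {κ : Type} [Fintype κ] [DecidableEq κ]

/-- products over the assignments with few indices in the support -/
theorem sum_supp_le (b : Fin n → κ → ℝ) (hb : ∀ i k, 0 ≤ b i k) (m : ℕ) :
    ∑ D : Col n κ with (Pool.Agent.H256R2.SC.supp D).card ≤ m,
      ∏ i, (match D i with | none => (1:ℝ) | some k => b i k) ≤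
    3 * (1 + ∑ i, ∑ k, b i k) ^ m := by
  set C : ℝ := ∑ i, ∑ k, b i k with hC
  have hC0 : 0 ≤ C := Finset.sum_nonneg fun i _ => Finset.sum_nonneg fun k _ => hb i k
  set t : ℝ := 1 / (1 + C) with ht
  have ht0 : 0 < t := by positivity
  have ht1 : t ≤ 1 := by rw [ht, div_le_one (by positivity)]; linarith
  have htC : t * (1 + C) = 1 := by rw [ht]; field_simp
  have hpt : ∀ D : Col n κ, 0 ≤ ∏ i, (match D i with | none => (1:ℝ) | some k => b i k) := by
    intro D
    apply Finset.prod_nonneg
    intro i _
    cases D i with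
    | none => norm_num
    | some k => exact hb i k
  have h1 : ∀ D : Col n κ, (Pool.Agent.H256R2.SC.supp D).card ≤ m →
      ∏ i, (match D i with | none => (1:ℝ) | some k => b i k) ≤
      (1 + C) ^ m * ∏ i, (match D i with | none => (1:ℝ) | some k => t * b i k) := by
    intro D hD
    have e1 : ∏ i, (match D i with | none => (1:ℝ) | some k => t * b i k) =
        t ^ (Pool.Agent.H256R2.SC.supp D).card *
          ∏ i, (match D i with | none => (1:ℝ) | some k => b i k) := by
      have e2 : t ^ (Pool.Agent.H256R2.SC.supp D).card =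
          ∏ i, (match D i with | none => (1:ℝ) | some _ => t) := by
        have : ∀ i, (match D i with | none => (1:ℝ) | some _ => t) =
            if D i ≠ none then t else 1 := by
          intro i
          cases D i with
          | none => simp
          | some k => simp
        rw [Finset.prod_congr rfl (fun i _ => this i), Finset.prod_ite, Finset.prod_const_one,
          mul_one, Finset.prod_const]
        rfl
      rw [e2, ← Finset.prod_mul_distrib]
      refine Finset.prod_congr rfl fun i _ => ?_
      cases D i with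
      | none => simp
      | some k => simp
    rw [e1, ← mul_assoc]
    have e3 : 1 ≤ (1 + C) ^ m * t ^ (Pool.Agent.H256R2.SC.supp D).card := by
      have e4 : t ^ m ≤ t ^ (Pool.Agent.H256R2.SC.supp D).card :=
        pow_le_pow_of_le_one ht0.le ht1 hD
      calc (1:ℝ) = (1 + C) ^ m * t ^ m := by rw [← mul_pow, mul_comm, htC, one_pow]
        _ ≤ _ := mul_le_mul_of_nonneg_left e4 (by positivity)
    have := mul_le_mul_of_nonneg_right e3 (hpt D)
    linarith
  have hpt' : ∀ D : Col n κ,
      0 ≤ ∏ i, (match D i with | none => (1:ℝ) | some k => t * b i k) := by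
    intro D
    apply Finset.prod_nonneg
    intro i _
    cases D i with
    | none => norm_num
    | some k => exact mul_nonneg ht0.le (hb i k)
  calc ∑ D : Col n κ with (Pool.Agent.H256R2.SC.supp D).card ≤ m,
      ∏ i, (match D i with | none => (1:ℝ) | some k => b i k)
      ≤ ∑ D : Col n κ with (Pool.Agent.H256R2.SC.supp D).card ≤ m,
        (1 + C) ^ m * ∏ i, (match D i with | none => (1:ℝ) | some k => t * b i k) :=
        Finset.sum_le_sum fun D hD => h1 D (Finset.mem_filter.1 hD).2
    _ ≤ ∑ D : Col n κ,
        (1 + C) ^ m * ∏ i, (match D i with | none => (1:ℝ) | some k => t * b i k) := by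
        apply Finset.sum_le_sum_of_subset_of_nonneg (Finset.subset_univ _)
        intro D _ _
        exact mul_nonneg (by positivity) (hpt' D)
    _ = (1 + C) ^ m * ∏ i, (1 + t * ∑ k, b i k) := by
        rw [← Finset.mul_sum]
        congr 1
        have e1 := Finset.prod_univ_sum (fun _ : Fin n => (univ : Finset (Option κ)))
          (fun (i : Fin n) (c : Option κ) =>
            (match c with | none => (1:ℝ) | some k => t * b i k))
        rw [Fintype.piFinset_univ] at e1
        rw [← e1]
        refine Finset.prod_congr rfl fun i _ => ?_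
        rw [Fintype.sum_option, Finset.mul_sum]
    _ ≤ (1 + C) ^ m * 3 := by
        apply mul_le_mul_of_nonneg_left _ (by positivity)
        calc ∏ i, (1 + t * ∑ k, b i k) ≤ ∏ i, Real.exp (t * ∑ k, b i k) := by
              apply Finset.prod_le_prod
              · intro i _
                have : 0 ≤ ∑ k, b i k := Finset.sum_nonneg fun k _ => hb i k
                positivity
              · intro i _
                have := Real.add_one_le_exp (t * ∑ k, b i k)
                linarith
          _ = Real.exp (t * C) := by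
              rw [← Real.exp_sum, ← Finset.mul_sum]
          _ ≤ Real.exp 1 := by
              apply Real.exp_le_exp.2
              rw [← htC]
              apply mul_le_mul_of_nonneg_left _ ht0.le
              linarith
          _ ≤ 3 := by
              have := Real.exp_one_lt_d9
              linarith
    _ = _ := by ring

theorem RB_le (M : ℕ) (hM : Even M) (K : Finset κ) (x : Col n κ) (h : ℝ)
    (hh : ((univ.filter (fun i => x i ≠ none)).card : ℝ) ≤ h) :
    |RB M K x| ≤ (1 + h) ^ M := by
  rw [abs_of_nonneg (RB_nonneg M hM K x)]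
  have h0 : 0 ≤ h := (Nat.cast_nonneg _).trans hh
  unfold RB
  set x' : Col n Unit := fun i => pk K (x i) with hx'
  rcases Nat.eq_zero_or_pos (hits () x').card with h1 | h1
  · rw [SS_zero M () x' h1]
    exact one_le_pow₀ (by linarith)
  · obtain ⟨N, hN⟩ : ∃ N, (hits () x').card = N + 1 := ⟨(hits () x').card - 1, by omega⟩
    rw [SS_pos M hM () x' N hN]
    have h2 : (hits () x').card ≤ (univ.filter (fun i => x i ≠ none)).card := by
      apply Finset.card_le_card
      intro i hi
      rw [hits, Finset.mem_filter] at hi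
      rw [Finset.mem_filter]
      refine ⟨Finset.mem_univ _, fun hc => ?_⟩
      have := hi.2
      rw [hx'] at this
      simp only [hc, pk] at this
      exact absurd this (by simp)
    have h3 : ((N.choose M : ℕ) : ℝ) ≤ ((N ^ M : ℕ) : ℝ) := by
      exact_mod_cast Nat.choose_le_pow N M
    refine h3.trans ?_
    push_cast
    apply pow_le_pow_left₀ (Nat.cast_nonneg _)
    have h4 : ((N + 1 : ℕ) : ℝ) ≤ h := by
      rw [← hN]
      refine le_trans ?_ hh
      exact_mod_cast h2
    push_cast at h4
    linarith

/-- a pointwise bound for the sieve weight -/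
theorem V2_le (g₂ : Fin n₂ → ℝ) (hg0 : ∀ i, 0 ≤ g₂ i) (y : Col n₂ κ → ℝ) (hy : ∀ D, |y D| ≤ 1)
    (m M : ℕ) (hM : Even M)
    (hsupp : ∀ D, y D ≠ 0 → (Pool.Agent.H256R2.SC.supp D).card ≤ m)
    (x₁ : Col n₁ κ) (x₂ : Col n₂ κ) (h₁ h₂ : ℝ)
    (H1 : ((univ.filter (fun i => x₁ i ≠ none)).card : ℝ) ≤ h₁)
    (H2 : ((univ.filter (fun i => x₂ i ≠ none)).card : ℝ) ≤ h₂) :
    |V2 g₂ y M x₁ x₂| ≤ (1 + h₁) ^ M *
      (3 * (1 + (h₂ + (Fintype.card κ : ℝ) * ∑ i, g₂ i)) ^ m) := by
  have h10 : 0 ≤ h₁ := (Nat.cast_nonneg _).trans H1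
  have h20 : 0 ≤ h₂ := (Nat.cast_nonneg _).trans H2
  set b : Fin n₂ → κ → ℝ := fun i k => (if x₂ i = some k then 1 else 0) + g₂ i with hb
  have hb0 : ∀ i k, 0 ≤ b i k := by
    intro i k
    rw [hb]
    have := hg0 i
    dsimp only
    split_ifs <;> linarith
  have hψ : ∀ D : Col n₂ κ, |psi g₂ D x₂| ≤
      ∏ i, (match D i with | none => (1:ℝ) | some k => b i k) := by
    intro D
    unfold psi
    rw [Finset.abs_prod]
    apply Finset.prod_le_prod
    · intro i _
      exact abs_nonneg _
    · intro i _
      unfold psi1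
      cases D i with
      | none => simp
      | some k =>
        simp only [hb]
        have := hg0 i
        split_ifs
        · rw [abs_le]; constructor <;> linarith
        · rw [abs_le]; constructor <;> linarith
  have hsum : ∑ i, ∑ k, b i k ≤ h₂ + (Fintype.card κ : ℝ) * ∑ i, g₂ i := by
    have e1 : ∀ i, ∑ k, b i k = (if x₂ i ≠ none then 1 else 0) + (Fintype.card κ : ℝ) * g₂ i := by
      intro i
      simp only [hb]
      rw [Finset.sum_add_distrib, Finset.sum_const, Finset.card_univ, nsmul_eq_mul]
      congr 1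
      cases hx : x₂ i with
      | none => simp
      | some l => simp
    rw [Finset.sum_congr rfl fun i _ => e1 i, Finset.sum_add_distrib, ← Finset.mul_sum]
    apply add_le_add_left
    rw [← Finset.sum_filter, Finset.sum_const, nsmul_eq_mul, mul_one]
    exact H2
  unfold V2 VV
  calc |∑ D, y D * RB M (cols D) x₁ * psi g₂ D x₂|
      ≤ ∑ D, |y D * RB M (cols D) x₁ * psi g₂ D x₂| := Finset.abs_sum_le_sum_abs _ _
    _ ≤ ∑ D : Col n₂ κ with (Pool.Agent.H256R2.SC.supp D).card ≤ m,
        (1 + h₁) ^ M * ∏ i, (match D i with | none => (1:ℝ) | some k => b i k) := by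
        rw [Finset.sum_filter]
        apply Finset.sum_le_sum
        intro D _
        have hp : 0 ≤ ∏ i, (match D i with | none => (1:ℝ) | some k => b i k) :=
          (abs_nonneg _).trans (hψ D)
        by_cases hD : y D = 0
        · rw [hD, zero_mul, zero_mul, abs_zero]
          split_ifs
          · positivity
          · exact le_rfl
        · rw [if_pos (hsupp D hD), abs_mul, abs_mul]
          apply mul_le_mul _ (hψ D) (abs_nonneg _) (by positivity)
          calc |y D| * |RB M (cols D) x₁| ≤ 1 * (1 + h₁) ^ M :=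
                mul_le_mul (hy D) (RB_le M hM (cols D) x₁ h₁ H1) (abs_nonneg _) zero_le_one
            _ = _ := one_mul _
    _ = (1 + h₁) ^ M * ∑ D : Col n₂ κ with (Pool.Agent.H256R2.SC.supp D).card ≤ m,
        ∏ i, (match D i with | none => (1:ℝ) | some k => b i k) := by rw [Finset.mul_sum]
    _ ≤ (1 + h₁) ^ M * (3 * (1 + ∑ i, ∑ k, b i k) ^ m) :=
        mul_le_mul_of_nonneg_left (sum_supp_le b hb0 m) (by positivity)
    _ ≤ _ := by
        apply mul_le_mul_of_nonneg_left _ (by positivity)
        apply mul_le_mul_of_nonneg_left _ (by norm_num)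
        apply pow_le_pow_left₀
        · have : 0 ≤ ∑ i, ∑ k, b i k :=
            Finset.sum_nonneg fun i _ => Finset.sum_nonneg fun k _ => hb0 i k
          linarith
        · linarith

/-- the size of the supports -/
theorem card_supp {p g : Fin n → ℝ} {h : Finset (Fin n) → ℝ} {z K v₀ : ℝ}
    (H : HypS p g h z K v₀) (Q : ℝ) (m₂ : ℝ) (hm₂ : 0 ≤ m₂)
    (hcard : ∀ s, h s ≠ 0 → (s.card : ℝ) ≤ m₂) (D : Col n κ)
    (hD : yT p h Q D ≠ 0) :
    ((Pool.Agent.H256R2.SC.supp D).card : ℝ) ≤ Real.log Q / v₀ * m₂ := by
  have h1 := card_cols H Q D hD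
  have h2 : ((Pool.Agent.H256R2.SC.supp D).card : ℝ) ≤ (cols D).card * m₂ := by
    have e1 : Pool.Agent.H256R2.SC.supp D ⊆ (cols D).biUnion (fun k => fib D k) := by
      intro i hi
      unfold Pool.Agent.H256R2.SC.supp at hi
      rw [Finset.mem_filter] at hi
      obtain ⟨k, hk⟩ := Option.ne_none_iff_exists'.1 hi.2
      rw [Finset.mem_biUnion]
      refine ⟨k, ?_, mem_fib.2 hk⟩
      rw [mem_cols]
      exact ⟨i, mem_fib.2 hk⟩
    have e2 : (Pool.Agent.H256R2.SC.supp D).card ≤ ∑ k ∈ cols D, (fib D k).card :=
      (Finset.card_le_card e1).trans Finset.card_biUnion_le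
    have e3 : ((Pool.Agent.H256R2.SC.supp D).card : ℝ) ≤ ∑ k ∈ cols D, ((fib D k).card : ℝ) := by
      exact_mod_cast e2
    refine e3.trans ?_
    rw [← nsmul_eq_mul, ← Finset.sum_const]
    apply Finset.sum_le_sum
    intro k hk
    apply hcard
    intro h0
    apply hD
    unfold yT
    split_ifs
    · unfold yy
      apply Finset.prod_eq_zero (Finset.mem_univ k)
      rw [mem_cols] at hk
      unfold al
      rw [if_neg hk.ne_empty, h0]
      simp
    · rfl
  exact h2.trans (mul_le_mul_of_nonneg_right h1 hm₂)

end Pool.Agent.Y831.RC
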