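import Pool.Agent.Y831.RC3.CovCnt
import Pool.Agent.Y831.RC2.CovB2

set_option autoImplicit false
set_option linter.unusedSectionVars false
set_option linter.unusedVariables false

/-! # The covering theorem with the sharp constant: many covered integers (numerical lemmas) -/

namespace Pool.Agent.Y831.RC

open Finset Filter Pool.Agent.H256R2.SC

open scoped Classical

theorem ev_covc (b ε C CR : ℝ) (hb : 1 < b) (hε : 0 < ε) (hε4 : ε ≤ 1 / 4) (hC : 0 < C) :
    ∃ L₀ : ℝ, ∀ L : ℝ, L₀ ≤ L →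
    L ^ (ε / 32) * Real.log L ≤ ε ^ 2 / 100 * L ∧
    -Real.log (ε ^ 2 / 100) + Real.log (Real.log L) ≤ ε / 32 * Real.log L ∧
    C / 2 ≤ L ^ (b - 1) ∧ 4 * CR ≤ Real.log L ∧
    16 < Real.exp (7 * ε * L / 64) ∧ 1616 * C ≤ L ∧
    32 * L ^ (ε / 32) ≤ L ∧ 960 * Real.log L ≤ ε * L ^ (ε / 32) ∧ 384 * Real.log L ≤ ε * L ∧
    1 + 27 * C * L * Real.log L ≤ L ^ 2 ∧ 48 * (Real.log L) ^ 2 ≤ L ^ (ε / 64) := by
  have t1 := Real.tendsto_log_atTop
  have hε0 : 0 < 1 - ε / 32 := by linarith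
  have h1 : ∀ᶠ L : ℝ in atTop, L ^ (ε / 32) * Real.log L ≤ ε ^ 2 / 100 * L := by
    have e1 := isLittleO_log_rpow_atTop hε0
    have e2 := e1.def (show (0:ℝ) < ε ^ 2 / 100 by positivity)
    filter_upwards [e2, eventually_ge_atTop (1:ℝ)] with L hL hL2
    have hL0 : 0 < L := by linarith
    rw [Real.norm_eq_abs, Real.norm_eq_abs, abs_of_nonneg (Real.log_nonneg hL2),
      abs_of_nonneg (Real.rpow_nonneg hL0.le _)] at hL
    calc L ^ (ε / 32) * Real.log L ≤ L ^ (ε / 32) * (ε ^ 2 / 100 * L ^ (1 - ε / 32)) :=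
          mul_le_mul_of_nonneg_left hL (Real.rpow_nonneg hL0.le _)
      _ = ε ^ 2 / 100 * (L ^ (ε / 32) * L ^ (1 - ε / 32)) := by ring
      _ = ε ^ 2 / 100 * L := by
          rw [← Real.rpow_add hL0]
          have : ε / 32 + (1 - ε / 32) = 1 := by ring
          rw [this, Real.rpow_one]
  have h2 : ∀ᶠ L : ℝ in atTop,
      -Real.log (ε ^ 2 / 100) + Real.log (Real.log L) ≤ ε / 32 * Real.log L := by
    have e1 : (fun x : ℝ => Real.log x) =o[atTop] (fun x : ℝ => x) := Real.isLittleO_log_id_atTop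
    have e2 := e1.def (show (0:ℝ) < ε / 64 by positivity)
    have e3 : ∀ᶠ x : ℝ in atTop, -Real.log (ε ^ 2 / 100) + Real.log x ≤
        ε / 32 * x := by
      filter_upwards [e2, eventually_ge_atTop (1:ℝ),
        eventually_ge_atTop (64 / ε * |-Real.log (ε ^ 2 / 100)|)]
        with x hx hx1 hx2
      rw [Real.norm_eq_abs, Real.norm_eq_abs, abs_of_nonneg (Real.log_nonneg hx1),
        abs_of_nonneg (by linarith)] at hx
      have e4 : |-Real.log (ε ^ 2 / 100)| ≤ ε / 64 * x := by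
        calc |-Real.log (ε ^ 2 / 100)| =
              ε / 64 * (64 / ε * |-Real.log (ε ^ 2 / 100)|) := by
              field_simp
          _ ≤ ε / 64 * x := mul_le_mul_of_nonneg_left hx2 (by positivity)
      have e5 := le_abs_self (-Real.log (ε ^ 2 / 100))
      linarith
    exact t1.eventually e3
  have h3 : ∀ᶠ L : ℝ in atTop, C / 2 ≤ L ^ (b - 1) :=
    (tendsto_rpow_atTop (show 0 < b - 1 by linarith)).eventually_ge_atTop _
  have h4 : ∀ᶠ L : ℝ in atTop, 4 * CR ≤ Real.log L := t1.eventually_ge_atTop _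
  have h6 : ∀ᶠ L : ℝ in atTop, 16 < Real.exp (7 * ε * L / 64) := by
    have e5 : Tendsto (fun x : ℝ => 7 * ε / 64 * x) atTop atTop :=
      Tendsto.const_mul_atTop (by positivity) tendsto_id
    have e6 := Real.tendsto_exp_atTop.comp e5
    filter_upwards [e6.eventually_gt_atTop 16] with x hx
    have : 7 * ε / 64 * x = 7 * ε * x / 64 := by ring
    simp only [Function.comp] at hx
    rwa [this] at hx
  have h7 : ∀ᶠ L : ℝ in atTop, 1616 * C ≤ L := eventually_ge_atTop _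
  have h8 : ∀ᶠ L : ℝ in atTop, 32 * L ^ (ε / 32) ≤ L := by
    filter_upwards [(tendsto_rpow_atTop hε0).eventually_ge_atTop 32, eventually_ge_atTop (1:ℝ)]
      with L hL hL1
    have hL0 : 0 < L := by linarith
    calc 32 * L ^ (ε / 32) ≤ L ^ (1 - ε / 32) * L ^ (ε / 32) :=
          mul_le_mul_of_nonneg_right hL (Real.rpow_nonneg hL0.le _)
      _ = L := by
          rw [← Real.rpow_add hL0]
          have : 1 - ε / 32 + ε / 32 = 1 := by ring
          rw [this, Real.rpow_one]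
  have h9 : ∀ᶠ L : ℝ in atTop, 960 * Real.log L ≤ ε * L ^ (ε / 32) := by
    have e1 := isLittleO_log_rpow_atTop (show 0 < ε / 32 by positivity)
    have e2 := e1.def (show (0:ℝ) < ε / 960 by positivity)
    filter_upwards [e2, eventually_ge_atTop (1:ℝ)] with L hL hL2
    have hL0 : 0 < L := by linarith
    rw [Real.norm_eq_abs, Real.norm_eq_abs, abs_of_nonneg (Real.log_nonneg hL2),
      abs_of_nonneg (Real.rpow_nonneg hL0.le _)] at hL
    linarith
  have h10 : ∀ᶠ L : ℝ in atTop, 384 * Real.log L ≤ ε * L := by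
    have e1 : (fun x : ℝ => Real.log x) =o[atTop] (fun x : ℝ => x) := Real.isLittleO_log_id_atTop
    have e2 := e1.def (show (0:ℝ) < ε / 384 by positivity)
    filter_upwards [e2, eventually_ge_atTop (1:ℝ)] with x hx hx1
    rw [Real.norm_eq_abs, Real.norm_eq_abs, abs_of_nonneg (Real.log_nonneg hx1),
      abs_of_nonneg (by linarith)] at hx
    linarith
  have h11 : ∀ᶠ L : ℝ in atTop, 1 + 27 * C * L * Real.log L ≤ L ^ 2 := by
    have e1 : (fun x : ℝ => Real.log x) =o[atTop] (fun x : ℝ => x) := Real.isLittleO_log_id_atTop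
    have e2 := e1.def (show (0:ℝ) < 1 / (54 * C) by positivity)
    filter_upwards [e2, eventually_ge_atTop (2:ℝ)] with x hx hx1
    rw [Real.norm_eq_abs, Real.norm_eq_abs, abs_of_nonneg (Real.log_nonneg (by linarith)),
      abs_of_nonneg (by linarith)] at hx
    have h5 : 27 * C * x * Real.log x ≤ 27 * C * x * (1 / (54 * C) * x) :=
      mul_le_mul_of_nonneg_left hx (by positivity)
    have h6 : 27 * C * x * (1 / (54 * C) * x) = x ^ 2 / 2 := by field_simp; norm_num
    nlinarith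
  have h12 : ∀ᶠ L : ℝ in atTop, 48 * (Real.log L) ^ 2 ≤ L ^ (ε / 64) := by
    have e1 : (fun L : ℝ => (Real.log L) ^ (2:ℝ)) =o[atTop] (fun L : ℝ => L ^ (ε / 64)) :=
      isLittleO_log_rpow_rpow_atTop 2 (by positivity)
    have e2 := e1.def (show (0:ℝ) < 1 / 48 by positivity)
    filter_upwards [e2, eventually_ge_atTop (1:ℝ)] with L hL hL1
    have hl0 := Real.log_nonneg hL1
    rw [Real.norm_eq_abs, Real.norm_eq_abs, abs_of_nonneg (Real.rpow_nonneg hl0 _),
      abs_of_nonneg (Real.rpow_nonneg (by linarith) _), Real.rpow_two] at hL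
    linarith
  exact Filter.eventually_atTop.1
    (h1.and (h2.and (h3.and (h4.and (h6.and (h7.and (h8.and (h9.and (h10.and (h11.and h12))))))))))

section
variable {ε C c L : ℝ}

theorem c_A {W V t : ℝ} (hε : 0 < ε) (hε4 : ε ≤ 1 / 4) (hW : 0 < W) (hL : 32 ≤ L) (hc : 0 < c)
    (hV : 0 < V)
    (f1 : 10 ≤ Real.log L) (hWc : c / 2 ≤ W * Real.log L) (f4 : 32 / (ε * c) ≤ Real.log L)
    (f6 : -Real.log (ε ^ 2 / 100) + Real.log V + 2 * Real.log (Real.log L) ≤ ε / 16 * Real.log L)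
    (f7 : 2 / L ^ 2 ≤ ε / 16) (ht : t ≤ ε * c / 32) :
    (1 - ε / 4) * (W * Real.log L) ≤ W / (1 + 2 / L ^ 2) *
      Real.log ((ε ^ 2 / 100 * L / Real.log L) / (V * Real.log L)) - V / (V * Real.log L) - t := by
  set l := Real.log L with hl
  have hl0 : 0 < l := by linarith
  have hL0 : 0 < L := by linarith
  have hθ0 : 0 < ε ^ 2 / 100 := by positivity
  have hy2 : 0 < 1 + 2 / L ^ 2 := by positivity
  have e1 : (1 - ε / 16) * l ≤ Real.log ((ε ^ 2 / 100 * L / l) / (V * l)) := by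
    have e0 : (ε ^ 2 / 100 * L / l) / (V * l) = (ε ^ 2 / 100 * L) / (V * l ^ 2) := by
      field_simp
    rw [e0, Real.log_div (by positivity) (by positivity),
      Real.log_mul hθ0.ne' hL0.ne', Real.log_mul hV.ne' (by positivity), Real.log_pow, ← hl]
    push_cast
    linarith
  have e2 : (1 - ε / 16) * W ≤ W / (1 + 2 / L ^ 2) := by
    rw [le_div_iff₀ hy2]
    have h3 : (1 - ε / 16) * (1 + 2 / L ^ 2) ≤ 1 := by nlinarith
    calc (1 - ε / 16) * W * (1 + 2 / L ^ 2) = W * ((1 - ε / 16) * (1 + 2 / L ^ 2)) := by ring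
      _ ≤ W * 1 := mul_le_mul_of_nonneg_left h3 hW.le
      _ = W := mul_one W
  have e3 : V / (V * l) ≤ ε / 16 * (W * l) := by
    rw [div_le_iff₀ (by positivity)] at f4
    have e0 : V / (V * l) = 1 / l := by field_simp
    rw [e0, div_le_iff₀ hl0]
    have h1 : ε / 16 * (c / 2) * l ≤ ε / 16 * (W * l) * l := by gcongr
    have h2 : 1 ≤ ε / 16 * (c / 2) * l := by
      have : ε / 16 * (c / 2) * l = l * (ε * c) / 32 := by ring
      rw [this, le_div_iff₀ (by norm_num)]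
      linarith
    linarith
  have e4 : (1 - ε / 16) * W * ((1 - ε / 16) * l) ≤
      W / (1 + 2 / L ^ 2) * Real.log ((ε ^ 2 / 100 * L / l) / (V * l)) := by
    apply mul_le_mul e2 e1
    · apply mul_nonneg _ hl0.le
      linarith
    · positivity
  have e5 : 0 ≤ W * l := by positivity
  have e7 : t ≤ ε / 16 * (W * l) := by
    refine ht.trans ?_
    have : ε * c / 32 = ε / 16 * (c / 2) := by ring
    rw [this]
    exact mul_le_mul_of_nonneg_left hWc (by positivity)
  have e6 : (1 - ε / 4) * (W * l) ≤ (1 - ε / 16) * W * ((1 - ε / 16) * l) - ε / 16 * (W * l) -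
      ε / 16 * (W * l) := by
    have : (1 - ε / 16) * W * ((1 - ε / 16) * l) - ε / 16 * (W * l) - ε / 16 * (W * l) -
        (1 - ε / 4) * (W * l) = (ε ^ 2 / 256) * (W * l) := by ring
    have h2 : 0 ≤ (ε ^ 2 / 256) * (W * l) := by positivity
    linarith
  linarith

theorem c_M {v T : ℝ} {M : ℕ} (hε : 0 < ε) (hL : 32 ≤ L) (hv : 0 < v) (hT : T = L / v)
    (hT32 : 32 ≤ T) (hM1 : 5 * T ≤ M) :
    (17 * (Real.log (Real.exp ((1 / 2 - ε / 4) * L)) / v) + 48) * 1 ≤ 2 * M := by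
  rw [Real.log_exp, mul_one]
  have e1 : (1 / 2 - ε / 4) * L / v ≤ T / 2 := by
    rw [hT, div_div, div_le_div_iff₀ hv (by positivity)]
    have : 0 ≤ ε / 4 * L * (v * 2) := by positivity
    nlinarith
  linarith

theorem c_pow {u l v T : ℝ} {M : ℕ} (hε : 0 < ε) (hl : l = Real.log L) (hl1 : 10 ≤ l)
    (hL : 32 ≤ L) (hv : 0 < v) (hT : T = L / v)
    (hC : 0 < C) (hLC : 32 * (C + 1) ≤ L) (hu0 : 0 ≤ u) (hu : u ≤ C / 4 * L)
    (g8 : 960 * l ≤ ε * v) (g9 : 384 * l ≤ ε * L) (hM2 : (M:ℝ) ≤ 5 * T + 2) :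
    (L ^ 2 * (u + 1)) ^ M ≤ Real.exp (ε * L / 24) := by
  have hl0 : 0 < l := by linarith
  have hL0 : 0 < L := by linarith
  have hLe : L = Real.exp l := by rw [hl, Real.exp_log hL0]
  have h1 : L ^ 2 * (u + 1) ≤ Real.exp (4 * l) := by
    have e1 : Real.exp (4 * l) = L ^ 2 * L ^ 2 := by
      have : 4 * l = ((4:ℕ):ℝ) * l := by norm_num
      rw [this, Real.exp_nat_mul, ← hLe]
      ring
    rw [e1]
    apply mul_le_mul_of_nonneg_left _ (by positivity)
    nlinarith
  calc (L ^ 2 * (u + 1)) ^ M ≤ (Real.exp (4 * l)) ^ M := pow_le_pow_left₀ (by positivity) h1 M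
    _ = Real.exp (M * (4 * l)) := by rw [← Real.exp_nat_mul]
    _ ≤ Real.exp (ε * L / 24) := by
        apply Real.exp_le_exp.2
        have e2 : (M:ℝ) * (4 * l) ≤ (5 * T + 2) * (4 * l) :=
          mul_le_mul_of_nonneg_right hM2 (by positivity)
        have e3 : T * (960 * l) ≤ ε * L := by
          have e4 : T * (960 * l) ≤ T * (ε * v) :=
            mul_le_mul_of_nonneg_left g8 (by rw [hT]; positivity)
          have e5 : T * (ε * v) = ε * L := by rw [hT]; field_simp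
          linarith
        have e6 : (5 * T + 2) * (4 * l) = T * (960 * l) / 48 + 8 * l := by ring
        linarith

theorem c_loss {l v : ℝ} {m₀ : ℕ} (hε : 0 < ε) (hc : 0 < c) (hl : 10 ≤ l) (hv : 1 ≤ v)
    (f4 : 32 / (ε * c) ≤ l) (hm₀ : 20 * l ≤ m₀) :
    Real.exp (3 * (21 / 20 * l) - m₀) / v ≤ ε * c / 32 := by
  have h1 : Real.exp (3 * (21 / 20 * l) - m₀) / v ≤ Real.exp (3 * (21 / 20 * l) - m₀) := by
    apply div_le_self (Real.exp_pos _).le hv
  have h2 : Real.exp (3 * (21 / 20 * l) - m₀) ≤ Real.exp (-l) := by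
    apply Real.exp_le_exp.2
    linarith
  have h3 : Real.exp (-l) ≤ 1 / l := by
    rw [Real.exp_neg, ← one_div]
    apply one_div_le_one_div_of_le (by linarith)
    have := Real.add_one_le_exp l
    linarith
  have h4 : 1 / l ≤ ε * c / 32 := by
    rw [div_le_iff₀ (by positivity)] at f4
    rw [div_le_div_iff₀ (by linarith) (by norm_num)]
    linarith
  linarith

theorem c_fin {u l v T G τ N K : ℝ} {J M m : ℕ} (hL : 32 ≤ L) (hl : l = Real.log L)
    (hl1 : 10 ≤ l) (hT32 : 32 ≤ T) (hu0 : 0 ≤ u) (hu : u ≤ C / 4 * L) (hC : 0 < C)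
    (hJ : (J:ℝ) ≤ 25 * l) (hG : G = 21 / 20 * l)
    (g10 : 1 + 27 * C * L * l ≤ L ^ 2)
    (hM2 : (M:ℝ) ≤ 5 * T + 2) (hm2 : (m:ℝ) ≤ T / 2 * (20 * l + 1) + 1)
    (hτ : 48 * (T * l ^ 2) ≤ τ) (hN0 : 0 ≤ N) (hK0 : 0 ≤ K)
    (h : 3 / 8 * N ≤ K * ((1 + u * J) ^ M * (3 * (1 + (u * J + u * G)) ^ m)) ^ 2) :
    N * Real.exp (-τ) ≤ K := by
  have hl0 : 0 < l := by linarith
  have hL0 : 0 < L := by linarith
  have hT0 : 0 < T := by linarith
  have hLe : L ^ 2 = Real.exp (2 * l) := by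
    have : 2 * l = ((2:ℕ):ℝ) * l := by norm_num
    rw [this, Real.exp_nat_mul, hl, Real.exp_log hL0]
  have hJ0 : (0:ℝ) ≤ J := Nat.cast_nonneg _
  have hG0 : 0 ≤ G := by rw [hG]; positivity
  have hCL : 0 ≤ C / 4 * L := by positivity
  have b1 : u * J ≤ C / 4 * L * (25 * l) := mul_le_mul hu hJ hJ0 hCL
  have b2 : u * G ≤ C / 4 * L * (21 / 20 * l) := by
    rw [hG]
    exact mul_le_mul_of_nonneg_right hu (by positivity)
  have b3 : 0 ≤ C * L * l := by positivity
  have b4 : 1 + u * J ≤ Real.exp (2 * l) := by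
    rw [← hLe]
    nlinarith
  have b5 : 1 + (u * J + u * G) ≤ Real.exp (2 * l) := by
    rw [← hLe]
    nlinarith
  have b6 : (1 + u * J) ^ M ≤ Real.exp (M * (2 * l)) := by
    rw [Real.exp_nat_mul]
    exact pow_le_pow_left₀ (by positivity) b4 M
  have b7 : (1 + (u * J + u * G)) ^ m ≤ Real.exp (m * (2 * l)) := by
    rw [Real.exp_nat_mul]
    exact pow_le_pow_left₀ (by positivity) b5 m
  have b8 : (3:ℝ) ≤ Real.exp 2 := by
    have := Real.add_one_le_exp (2:ℝ)
    linarith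
  have b9 : (1 + u * J) ^ M * (3 * (1 + (u * J + u * G)) ^ m) ≤
      Real.exp (M * (2 * l) + (2 + m * (2 * l))) := by
    rw [Real.exp_add, Real.exp_add]
    apply mul_le_mul b6 _ (by positivity) (Real.exp_pos _).le
    exact mul_le_mul b8 b7 (by positivity) (Real.exp_pos _).le
  have b10 : ((1 + u * J) ^ M * (3 * (1 + (u * J + u * G)) ^ m)) ^ 2 ≤
      Real.exp (2 * (M * (2 * l) + (2 + m * (2 * l)))) := by
    have : 2 * (M * (2 * l) + (2 + m * (2 * l))) = ((2:ℕ):ℝ) * (M * (2 * l) + (2 + m * (2 * l))) := by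
      norm_num
    rw [this, Real.exp_nat_mul]
    exact pow_le_pow_left₀ (by positivity) b9 2
  have b11 : 2 * (M * (2 * l) + (2 + m * (2 * l))) + 1 ≤ τ := by
    refine le_trans ?_ hτ
    have e1 : (M:ℝ) * l ≤ (5 * T + 2) * l := mul_le_mul_of_nonneg_right hM2 hl0.le
    have e2 : (m:ℝ) * l ≤ (T / 2 * (20 * l + 1) + 1) * l := mul_le_mul_of_nonneg_right hm2 hl0.le
    have e3 : T * 10 * l ≤ T * l * l :=
      mul_le_mul_of_nonneg_right (mul_le_mul_of_nonneg_left hl1 hT0.le) hl0.le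
    have e4 : 32 * (l * 10) ≤ T * (l * l) := by
      apply mul_le_mul hT32 _ (by positivity) hT0.le
      exact mul_le_mul_of_nonneg_left hl1 hl0.le
    have e5 : 100 ≤ l * l := by nlinarith
    nlinarith
  have b12 : Real.exp (2 * (M * (2 * l) + (2 + m * (2 * l)))) ≤ Real.exp τ * (3 / 8) := by
    have e1 : Real.exp (2 * (M * (2 * l) + (2 + m * (2 * l)))) * Real.exp 1 ≤ Real.exp τ := by
      rw [← Real.exp_add]
      exact Real.exp_le_exp.2 b11
    have e2 := Real.exp_one_gt_d9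
    have e3 := Real.exp_pos (2 * (M * (2 * l) + (2 + m * (2 * l))))
    nlinarith
  have b13 : 3 / 8 * N ≤ K * (Real.exp τ * (3 / 8)) :=
    h.trans (mul_le_mul_of_nonneg_left (b10.trans b12) hK0)
  have b14 : N ≤ K * Real.exp τ := by nlinarith
  calc N * Real.exp (-τ) ≤ K * Real.exp τ * Real.exp (-τ) :=
        mul_le_mul_of_nonneg_right b14 (Real.exp_pos _).le
    _ = K := by rw [mul_assoc, ← Real.exp_add, add_neg_cancel, Real.exp_zero, mul_one]

end

end Pool.Agent.Y831.RC
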