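import Pool.Agent.Y831.RC3.CovC

set_option autoImplicit false
set_option linter.unusedSectionVars false
set_option linter.unusedVariables false

/-! # The covering theorem with the sharp constant: many covered integers -/

namespace Pool.Agent.Y831.RC

open Finset Filter Pool.Agent.H256R2.SC

open scoped Classical

/-- covering property at `X` with a count: primes in `(w, X^δ]`, at most
`(1/2 - ε) log X loglog X ∏_{p ≤ w} (1 - 1/p)` classes, at least `(B - A) e^{-τ}` covered integers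
in `(A, B]` -/
def CovCnt (w X δ ε τ : ℝ) : Prop :=
  ∀ (κ : Type) [Fintype κ] [DecidableEq κ],
    (Fintype.card κ : ℝ) ≤ (1 / 2 - ε) * (Real.log X * Real.log (Real.log X) * WW w) →
    ∀ (res : ℕ → κ → ℤ),
    (∀ p : ℕ, p.Prime → w < p → (p : ℝ) ≤ X ^ δ →
      ∀ k l, k ≠ l → ¬ ((p : ℤ) ∣ res p k - res p l)) →
    ∀ A B : ℤ, X ^ (1 - δ) ≤ (B : ℝ) - A →
    ((B : ℝ) - A) * Real.exp (-τ) ≤ (((Ioc A B).filter (fun x : ℤ => ∀ k : κ,
      ∃ p : ℕ, p.Prime ∧ w < p ∧ (p : ℝ) ≤ X ^ δ ∧ (p : ℤ) ∣ x - res p k)).card : ℝ)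

theorem covc (b : ℝ) (hb1 : 1 < b) (hb2 : b ≤ 2) (ε : ℝ) (hε : 0 < ε) (hε4 : ε ≤ 1 / 4) :
    ∃ X₀ : ℝ, ∀ X : ℝ, X₀ ≤ X →
      CovCnt ((Real.log X) ^ b) X (ε / 8) ε ((Real.log X) ^ (1 - ε / 64)) := by
  obtain ⟨CM, hCM0, hSP⟩ := sum_PS
  obtain ⟨c, C, hc, hcC, hWb⟩ := WW_bounds
  obtain ⟨CR, hCR0, hSR⟩ := sum_ratio
  have hC : 0 < C := hc.trans_le hcC
  obtain ⟨L₀, hL₀⟩ := ev_cov2 ε (2 * C) c CM hε hc (by positivity)
  obtain ⟨L₁, hL₁⟩ := ev_covc b ε (2 * C) CR hb1 hε hε4 (by positivity)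
  refine ⟨Real.exp (max L₀ L₁), ?_⟩
  intro X hX κ _ _ hκ res hres A B hAB
  have hX0 : 0 < X := lt_of_lt_of_le (Real.exp_pos _) hX
  have hXL : X = Real.exp (Real.log X) := (Real.exp_log hX0).symm
  have hLL : max L₀ L₁ ≤ Real.log X := by
    rw [← Real.log_exp (max L₀ L₁)]
    exact Real.log_le_log (Real.exp_pos _) hX
  have hXr : ∀ s : ℝ, X ^ s = Real.exp (s * Real.log X) := by
    intro s
    rw [Real.rpow_def_of_pos hX0, mul_comm]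
  obtain ⟨f1, f2, f3, f4, f5, f6, f7, f8, f9, f10, f11⟩ :=
    hL₀ (Real.log X) ((le_max_left _ _).trans hLL)
  obtain ⟨g1, g2, g3, g4, g6, g7, g5, g8, g9, g10, g11⟩ := hL₁ (Real.log X) ((le_max_right _ _).trans hLL)
  rw [hXr] at hAB
  simp only [hXr] at hres ⊢
  clear hX hLL hXL hL₀ hL₁ hX0 hXr
  generalize Real.log X = L at *
  have hC2 : 0 < 2 * C := by linarith
  have hL32 : 32 ≤ L := n_L hC2 f8
  have hL0 : 0 < L := by linarith
  obtain ⟨l, hl⟩ : ∃ l, l = Real.log L := ⟨_, rfl⟩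
  rw [← hl] at f1 f2 f3 f4 f5 f9 g1 g2 g4 g8 g9 g10 g11 hκ
  have hl0 : 0 < l := by linarith
  obtain ⟨v, hv⟩ : ∃ v : ℝ, v = L ^ (ε / 32) := ⟨_, rfl⟩
  have hv0 : 0 < v := by rw [hv]; exact Real.rpow_pos_of_pos hL0 _
  rw [← hv] at g1 g5 g8
  obtain ⟨V, hV⟩ : ∃ V : ℝ, V = v / l := ⟨_, rfl⟩
  have hV0 : 0 < V := by rw [hV]; positivity
  have hVl : V * l = v := by rw [hV]; field_simp
  have hV2 : 2 ≤ V := by
    rw [hV, le_div_iff₀ hl0]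
    nlinarith
  have hv1 : 1 ≤ v := by nlinarith
  have hlz : l ≤ ε ^ 2 / 100 * L / l := n_lz hε f1 f5
  have hvz : V * l ≤ ε ^ 2 / 100 * L / l := by
    rw [le_div_iff₀ hl0]
    rw [hVl]
    exact g1
  have hz8 : ε ^ 2 / 100 * L / l ≤ ε / 8 * L := n_z8 hε hε4 f1 hL32
  have hlogy : Real.log (L ^ 2) = 2 * l := by rw [Real.log_pow, ← hl]; push_cast; ring
  have hlogw : Real.log (L ^ b) = b * l := by rw [Real.log_rpow hL0, ← hl]
  have hL2 : (9:ℝ) ≤ L ^ 2 := by nlinarith only [hL32]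
  have hwy : L ^ b ≤ L ^ 2 := by
    rw [← Real.rpow_two]
    exact Real.rpow_le_rpow_of_exponent_le (by linarith) hb2
  have hw2 : 2 ≤ L ^ b := by
    calc (2:ℝ) ≤ L := by linarith
      _ = L ^ (1:ℝ) := (Real.rpow_one L).symm
      _ ≤ L ^ b := Real.rpow_le_rpow_of_exponent_le (by linarith) hb1.le
  have hyz : L ^ 2 ≤ Real.exp (ε ^ 2 / 100 * L / l) := by
    have e1 : L ^ 2 = Real.exp (2 * l) := by
      rw [← hlogy, Real.exp_log (by positivity)]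
    rw [e1]
    apply Real.exp_le_exp.2
    refine le_trans ?_ hvz
    exact mul_le_mul_of_nonneg_right hV2 hl0.le
  obtain ⟨hWl, hWu⟩ := hWb (L ^ 2) (by linarith)
  obtain ⟨_, hWu₁⟩ := hWb (L ^ b) hw2
  rw [hlogy] at hWl hWu
  rw [hlogw] at hWu₁
  have hW0 : 0 < WW (L ^ 2) := WW_pos _
  have hW₁0 : 0 < WW (L ^ b) := WW_pos _
  have hWc : c / 2 ≤ WW (L ^ 2) * l := by linarith
  have hA₀pos : 0 < (1 - ε / 4) * (WW (L ^ 2) * l) := by
    apply mul_pos (by linarith)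
    positivity
  have hlogz : Real.log (Real.exp (ε ^ 2 / 100 * L / l)) = ε ^ 2 / 100 * L / l := Real.log_exp _
  have hz1 : 1 < Real.exp (ε ^ 2 / 100 * L / l) := Real.one_lt_exp_iff.mpr (by positivity)
  have hlogV : Real.log V = ε / 32 * l - Real.log l := by
    rw [hV, Real.log_div hv0.ne' hl0.ne', hv, Real.log_rpow hL0, ← hl]
  obtain ⟨m₀, hm₀⟩ : ∃ m₀ : ℕ, m₀ = ⌈20 * l⌉₊ := ⟨_, rfl⟩
  have hm₀1 : 20 * l ≤ (m₀:ℝ) := by rw [hm₀]; exact Nat.le_ceil _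
  have hm₀2 : (m₀:ℝ) ≤ 20 * l + 1 := by
    rw [hm₀]
    exact (Nat.ceil_lt_add_one (by positivity)).le
  have hloss := c_loss (c := c) (v := v) hε hc f1 hv1 f4 hm₀1
  have hnA := c_A (L := L) (V := V) (t := Real.exp (3 * (21 / 20 * l) - m₀) / v)
    hε hε4 hW0 hL32 hc hV0 (by rw [← hl]; exact f1)
    (by rw [← hl]; exact hWc) (by rw [← hl]; exact f4) (by
      rw [← hl, hlogV]
      linarith) f7 hloss
  rw [← hl] at hnA
  -- the small sets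
  have hsmall : ∑ s : Finset (Fin (PS (L ^ 2) (Real.exp (ε ^ 2 / 100 * L / l)) ∅).card) with
      Real.log (∏ i ∈ s, ((emb (PS (L ^ 2) (Real.exp (ε ^ 2 / 100 * L / l)) ∅) i : ℕ) : ℝ)) < V * l,
      ∏ i ∈ s, 1 / ((emb (PS (L ^ 2) (Real.exp (ε ^ 2 / 100 * L / l)) ∅) i : ℕ) : ℝ) ≤ V := by
    refine (small_PS (L ^ 2) (Real.exp (ε ^ 2 / 100 * L / l)) (V * l) (Real.exp_pos _).le
      (by linarith)).trans ?_
    refine le_trans (Real.exp_le_exp.2 (hSR (L ^ 2) (Real.exp (V * l)) (by linarith) ?_)) ?_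
    · have e1 : L ^ 2 = Real.exp (2 * l) := by
        rw [← hlogy, Real.exp_log (by positivity)]
      rw [e1]
      exact Real.exp_le_exp.2 (mul_le_mul_of_nonneg_right hV2 hl0.le)
    · rw [Real.log_exp, hlogy]
      exact b_B1 f1 hV0 hCR0 g4
  have hG := hSP (L ^ 2) (Real.exp (ε ^ 2 / 100 * L / l)) (Real.exp_le_exp.2 (by linarith))
  rw [hlogz] at hG
  have hG' : ∑ i, 1 / ((emb (PS (L ^ 2) (Real.exp (ε ^ 2 / 100 * L / l)) ∅) i : ℕ) : ℝ) ≤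
      21 / 20 * l := by
    have h1 : Real.log (ε ^ 2 / 100 * L / l) ≤ l := by
      rw [hl]
      apply Real.log_le_log (by rw [← hl]; positivity)
      rw [← hl]
      refine hz8.trans ?_
      have : ε / 8 * L ≤ 1 * L := mul_le_mul_of_nonneg_right (by linarith) hL0.le
      linarith
    linarith
  have hH := profileT_PS m₀ (L ^ 2) (Real.exp (ε ^ 2 / 100 * L / l)) (V * l)
    ((1 - ε / 4) * (WW (L ^ 2) * l)) V (21 / 20 * l) (by linarith) hz1 (by positivity)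
    (by rw [hlogz]; exact hvz) hA₀pos hsmall hG' (by
      rw [hlogz, hVl]
      rw [hVl] at hnA
      exact hnA)
    (b_yA hε hε4 hc f1 hV0 hWc f4)
  have hG₁ : ∑ i, 1 / ((emb (PS (L ^ b) (L ^ 2) ∅) i : ℕ) : ℝ) ≤ 1 := by
    refine (sum_block CR hSR (L ^ b) (L ^ 2) hw2 hwy).trans ?_
    rw [hlogy, hlogw]
    exact b_G1 hb1 hb2 f1 hCR0 g4
  obtain ⟨u, hu⟩ : ∃ u, (Fintype.card κ : ℝ) = u := ⟨_, rfl⟩
  have hu0 : 0 ≤ u := by rw [← hu]; positivity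
  rw [hu] at hκ
  have huL : u ≤ 2 * C / 4 * L := b_uL hε hε4 hL32 f1 hb1.le hW₁0 hWu₁ hκ
  have huK := n_uK hε hε4 hL32 f1 hW₁0 hκ
  obtain ⟨J, hJ⟩ : ∃ J : ℕ, J = 2 * ⌈12 * l⌉₊ := ⟨_, rfl⟩
  have hJ1 : 24 * l ≤ (J:ℝ) := by
    have := Nat.le_ceil (12 * l)
    rw [hJ]; push_cast; linarith
  have hJ2 : (J:ℝ) ≤ 25 * l := by
    have := Nat.ceil_lt_add_one (show 0 ≤ 12 * l by positivity)
    rw [hJ]; push_cast; linarith
  have hJe : Even J := ⟨⌈12 * l⌉₊, by rw [hJ]; ring⟩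
  obtain ⟨T, hT⟩ : ∃ T, T = L / v := ⟨_, rfl⟩
  have hT32 : 32 ≤ T := by
    rw [hT, le_div_iff₀ hv0]
    exact g5
  obtain ⟨M, hM⟩ : ∃ M : ℕ, M = 2 * ⌈5 * T / 2⌉₊ := ⟨_, rfl⟩
  have hMe : Even M := ⟨⌈5 * T / 2⌉₊, by rw [hM]; ring⟩
  have hM0 : 0 ≤ 5 * T / 2 := by positivity
  have hM1 : 5 * T ≤ (M:ℝ) := by
    have := Nat.le_ceil (5 * T / 2)
    rw [hM]; push_cast; linarith
  have hM2 : (M:ℝ) ≤ 5 * T + 2 := by
    have := Nat.ceil_lt_add_one hM0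
    rw [hM]; push_cast; linarith
  have hQv : Real.log (Real.exp ((1 / 2 - ε / 4) * L)) / v ≤ T / 2 := by
    rw [Real.log_exp, hT, div_div, div_le_div_iff₀ hv0 (by positivity)]
    have : 0 ≤ ε / 4 * L * (v * 2) := by positivity
    nlinarith
  have hQv0 : 0 ≤ Real.log (Real.exp ((1 / 2 - ε / 4) * L)) / v * m₀ := by
    rw [Real.log_exp]
    have : 0 ≤ (1 / 2 - ε / 4) * L := by apply mul_nonneg _ hL0.le; linarith
    positivity
  obtain ⟨m, hm⟩ : ∃ m : ℕ, m = ⌈Real.log (Real.exp ((1 / 2 - ε / 4) * L)) / v * m₀⌉₊ := ⟨_, rfl⟩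
  have hm1 : Real.log (Real.exp ((1 / 2 - ε / 4) * L)) / v * m₀ ≤ m := by
    rw [hm]; exact Nat.le_ceil _
  have hm2 : (m:ℝ) ≤ T / 2 * (20 * l + 1) + 1 := by
    rw [hm]
    refine (Nat.ceil_lt_add_one hQv0).le.trans ?_
    apply add_le_add_left
    exact mul_le_mul hQv hm₀2 (Nat.cast_nonneg _) (by linarith)
  have hzJ : (Real.exp (ε ^ 2 / 100 * L / l)) ^ J ≤ Real.exp (ε * L / 16) := by
    rw [← Real.exp_nat_mul]
    apply Real.exp_le_exp.mpr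
    calc (J:ℝ) * (ε ^ 2 / 100 * L / l) ≤ (25 * l) * (ε ^ 2 / 100 * L / l) :=
          mul_le_mul_of_nonneg_right hJ2 (by positivity)
      _ = ε / 4 * (ε * L) := by field_simp; norm_num
      _ ≤ 1 / 16 * (ε * L) := by
          apply mul_le_mul_of_nonneg_right _ (by positivity)
          linarith
      _ = ε * L / 16 := by ring
  have hz8' : Real.exp (ε ^ 2 / 100 * L / l) ≤ Real.exp (ε / 8 * L) := Real.exp_le_exp.2 hz8
  have hQ1 : 1 ≤ Real.exp ((1 / 2 - ε / 4) * L) :=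
    Real.one_le_exp (by apply mul_nonneg _ hL0.le; linarith)
  have hδ := n_δ (ε := ε) hε hL32 f1
  have hPw := c_pow (M := M) hε hl f1 hL32 hv0 hT hC2 f8 hu0 huL g8 g9 hM2
  have hfin := b_fin (l := l) (z := Real.exp (ε ^ 2 / 100 * L / l)) (J := J) hε hL32 hC2 hu0 huL
    (by positivity) hzJ (by positivity) hPw f10 g6 hAB
  have hKK : WW (L ^ 2) / WW (L ^ b) * (1 / ((1 - ε / 4) * (WW (L ^ 2) * l))) =
      1 / ((1 - ε / 4) * (WW (L ^ b) * l)) := b_K hε4 hW0 hW₁0 hl0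
  have htl := b_tail hε hε4 f8 hl f1 hC2 hu0 huL huK
  rw [← hKK] at htl
  have hmain := cover_count (L ^ b) (L ^ 2) (Real.exp (ε ^ 2 / 100 * L / l))
    (1 / ((1 - ε / 4) * (WW (L ^ 2) * l))) (Real.exp ((1 / 2 - ε / 4) * L)) (1 / (2 * l * L)) (ε / 2)
    (1 + ε / 16) (Real.exp ((1 / 2 - 13 * ε / 64) * L)) 1 (21 / 20 * l) (V * l) J M m₀ m hJe hMe
    hw2 hwy hyz hL2 hz1 hQ1
    (by positivity) (by linarith) (by linarith) hG₁ hG' hH (by rw [hVl]; exact hm1)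
    (by rw [hlogy, Real.log_exp]; exact hδ)
    κ u hu (b_uw hL32 huL g3) (n_uy f8 hC2 huL) (n_uδ hL32 f1 f3 hC2 huL) (by positivity)
    (by rw [hVl]; exact c_M hε hL32 hv0 hT hT32 hM1)
    (n_CB hε hε4 hL32 hl f1 hC2 hu0 huL f9)
    htl
    (b_mom g7 hL32 hl f1 hC2 hu0 huL hJ1)
    res (fun p hp hp1 hp2 => hres p hp hp1 (hp2.trans hz8')) A B hfin
  have hTv : T * L ^ (ε / 64) = L ^ (1 - ε / 64) := by
    rw [hT, hv]
    nth_rewrite 1 [← Real.rpow_one L]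
    rw [← Real.rpow_sub hL0, ← Real.rpow_add hL0]
    congr 1
    ring
  have hτ : 48 * (T * l ^ 2) ≤ L ^ (1 - ε / 64) := by
    rw [← hTv]
    have := mul_le_mul_of_nonneg_left g11 (show 0 ≤ T by linarith)
    linarith
  have hN0 : 0 ≤ (B:ℝ) - A := (Real.exp_pos _).le.trans hAB
  refine (c_fin (v := v) hL32 hl f1 hT32 hu0 huL hC2 hJ2 rfl (by linarith) hM2 hm2 hτ hN0
    (Nat.cast_nonneg _) hmain).trans ?_
  have hsub : ((Ioc A B).filter (fun x : ℤ => ∀ k : κ, ∃ p : ℕ, p.Prime ∧ L ^ b < p ∧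
      (p : ℝ) ≤ Real.exp (ε ^ 2 / 100 * L / l) ∧ (p : ℤ) ∣ x - res p k)).card ≤
      ((Ioc A B).filter (fun x : ℤ => ∀ k : κ, ∃ p : ℕ, p.Prime ∧ L ^ b < p ∧
      (p : ℝ) ≤ Real.exp (ε / 8 * L) ∧ (p : ℤ) ∣ x - res p k)).card := by
    apply Finset.card_le_card
    intro x hx
    rw [Finset.mem_filter] at hx ⊢
    refine ⟨hx.1, fun k => ?_⟩
    obtain ⟨p, hp, hp1, hp2, hp3⟩ := hx.2 k
    exact ⟨p, hp, hp1, hp2.trans hz8', hp3⟩
  exact_mod_cast hsub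

end Pool.Agent.Y831.RC
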