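import Pool.Agent.Y831.RC2.Apply2

set_option autoImplicit false
set_option linter.unusedSectionVars false

/-! # The optimal profile without small sets and without sets of many elements -/

namespace Pool.Agent.Y831.RC

open Finset Pool.Agent.H256R2.SC

variable {n : ℕ}

theorem exists_hT (m₀ : ℕ) (p g : Fin n → ℝ) (hp : ∀ i, 1 < p i) (hg : ∀ i, 0 < g i) (z A v₀ B₁ : ℝ)
    (hz : 1 < z) (hA : 0 < A) (hv₀ : 0 < v₀)
    (hAle : A ≤ ∑ s : Finset (Fin n) with ((s.Nonempty ∧ v₀ ≤ Real.log (∏ i ∈ s, p i)) ∧
      ∏ i ∈ s, p i ≤ z) ∧ s.card ≤ m₀, (∏ i ∈ s, g i) / Real.log (∏ i ∈ s, p i))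
    (hB : ∑ s : Finset (Fin n) with Real.log (∏ i ∈ s, p i) < v₀, ∏ i ∈ s, g i ≤ B₁)
    (hBA : B₁ ≤ A * v₀) :
    ∃ h, HypS p g h z (1 / A) v₀ ∧ ∀ s, h s ≠ 0 → s.card ≤ m₀ := by
  classical
  have hPpos : ∀ s : Finset (Fin n), 0 < ∏ i ∈ s, p i :=
    fun s => Finset.prod_pos (fun i _ => lt_trans one_pos (hp i))
  have hGpos : ∀ s : Finset (Fin n), 0 < ∏ i ∈ s, g i :=
    fun s => Finset.prod_pos (fun i _ => hg i)
  have hP1 : ∀ s : Finset (Fin n), 1 ≤ ∏ i ∈ s, p i := by
    intro s
    calc (1 : ℝ) = ∏ _i ∈ s, (1 : ℝ) := by simp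
      _ ≤ ∏ i ∈ s, p i := Finset.prod_le_prod (fun _ _ => zero_le_one) (fun i _ => (hp i).le)
  have hPmono : ∀ s t : Finset (Fin n), s ⊆ t → ∏ i ∈ s, p i ≤ ∏ i ∈ t, p i := by
    intro s t hst
    rw [← Finset.prod_sdiff hst]
    calc ∏ i ∈ s, p i = 1 * ∏ i ∈ s, p i := (one_mul _).symm
      _ ≤ (∏ i ∈ t \ s, p i) * ∏ i ∈ s, p i :=
        mul_le_mul_of_nonneg_right (hP1 _) (hPpos s).le
  set C : Finset (Fin n) → Prop := fun s =>
    ((s.Nonempty ∧ v₀ ≤ Real.log (∏ i ∈ s, p i)) ∧ ∏ i ∈ s, p i ≤ z) ∧ s.card ≤ m₀ with hC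
  set A' : ℝ := ∑ s : Finset (Fin n) with C s,
      (∏ i ∈ s, g i) / Real.log (∏ i ∈ s, p i) with hA'
  have hA'0 : 0 < A' := hA.trans_le hAle
  let h : Finset (Fin n) → ℝ := fun s => if C s then 1 / (A' * Real.log (∏ i ∈ s, p i)) else 0
  have hdef : ∀ s, h s = if C s then 1 / (A' * Real.log (∏ i ∈ s, p i)) else 0 := fun s => rfl
  have hlogC : ∀ s, C s → 0 < Real.log (∏ i ∈ s, p i) := fun s hs => by
    have := hs.1.1.2
    linarith
  have hB1 : 1 ≤ B₁ := by
    refine le_trans ?_ hB
    have e : (∏ i ∈ (∅ : Finset (Fin n)), g i) = 1 := Finset.prod_empty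
    rw [← e]
    refine Finset.single_le_sum (f := fun s : Finset (Fin n) => ∏ i ∈ s, g i)
      (fun s _ => (hGpos s).le) ?_
    rw [Finset.mem_filter]
    exact ⟨Finset.mem_univ _, by simpa using hv₀⟩
  have hA'v : 1 ≤ A' * v₀ := by
    have h1 : A * v₀ ≤ A' * v₀ := mul_le_mul_of_nonneg_right hAle hv₀.le
    linarith
  have h0 : ∀ s, 0 ≤ h s := by
    intro s
    rw [hdef]
    split_ifs with hs
    · have := hlogC s hs
      positivity
    · exact le_rfl
  have hsumC : ∑ s : Finset (Fin n) with s.Nonempty, h s * ∏ i ∈ s, g i = 1 := by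
    have h1 : ∑ s : Finset (Fin n) with s.Nonempty, h s * ∏ i ∈ s, g i =
        ∑ s : Finset (Fin n) with C s, (1 / A') * ((∏ i ∈ s, g i) / Real.log (∏ i ∈ s, p i)) := by
      rw [Finset.sum_filter, Finset.sum_filter]
      refine Finset.sum_congr rfl fun s _ => ?_
      rw [hdef]
      by_cases hs : C s
      · rw [if_pos hs.1.1.1, if_pos hs, if_pos hs]
        have := hlogC s hs
        field_simp
      · rw [if_neg hs, zero_mul, if_neg hs, ite_self]
    rw [h1, ← Finset.mul_sum, one_div, inv_mul_cancel₀ hA'0.ne']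
  refine ⟨h, ⟨hp, hg, hz, by positivity, hv₀, h0, ?_, ?_, ?_, hsumC, ?_, ?_⟩, ?_⟩
  · intro s
    rw [hdef]
    split_ifs with hs
    · have h1 := hlogC s hs
      rw [div_le_one (mul_pos hA'0 h1)]
      refine hA'v.trans ?_
      exact mul_le_mul_of_nonneg_left hs.1.1.2 hA'0.le
    · exact zero_le_one
  · intro s hs
    rw [hdef] at hs
    by_contra hc
    rw [if_neg (fun h => hc h.1.2)] at hs
    exact hs rfl
  · intro s hs
    rw [hdef] at hs
    by_contra hc
    rw [if_neg (fun h => hc h.1.1.2)] at hs
    exact hs rfl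
  · intro i
    have h1 : ∑ s : Finset (Fin n) with i ∈ s, h s * ∏ j ∈ s, g j =
        ∑ s : Finset (Fin n) with i ∉ s, h (insert i s) * (g i * ∏ j ∈ s, g j) := by
      refine Finset.sum_bij' (fun s _ => s.erase i) (fun s _ => insert i s) ?_ ?_ ?_ ?_ ?_
      · intro s _; simp
      · intro s _; simp
      · intro s hs
        rw [Finset.mem_filter] at hs
        exact Finset.insert_erase hs.2
      · intro s hs
        rw [Finset.mem_filter] at hs
        exact Finset.erase_insert hs.2
      · intro s hs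
        rw [Finset.mem_filter] at hs
        rw [Finset.insert_erase hs.2, Finset.mul_prod_erase s g hs.2]
    have h2 : ∀ s : Finset (Fin n), h (insert i s) ≤
        (if Real.log (∏ j ∈ s, p j) < v₀ then 1 / (A' * v₀) else 0) +
          (if s.Nonempty then h s else 0) := by
      intro s
      have hnn : 0 ≤ (if s.Nonempty then h s else 0) := by
        split_ifs
        · exact h0 s
        · exact le_rfl
      have hnn2 : 0 ≤ (if Real.log (∏ j ∈ s, p j) < v₀ then 1 / (A' * v₀) else 0) := by
        split_ifs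
        · positivity
        · exact le_rfl
      by_cases hi : C (insert i s)
      · have e1 : h (insert i s) = 1 / (A' * Real.log (∏ j ∈ insert i s, p j)) := by
          rw [hdef, if_pos hi]
        rw [e1]
        by_cases hv : Real.log (∏ j ∈ s, p j) < v₀
        · rw [if_pos hv]
          have e2 : 1 / (A' * Real.log (∏ j ∈ insert i s, p j)) ≤ 1 / (A' * v₀) := by
            apply one_div_le_one_div_of_le (mul_pos hA'0 hv₀)
            exact mul_le_mul_of_nonneg_left hi.1.1.2 hA'0.le
          linarith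
        · push Not at hv
          have hne : s.Nonempty := by
            rw [Finset.nonempty_iff_ne_empty]
            rintro rfl
            simp at hv
            linarith
          have hCs : C s := ⟨⟨⟨hne, hv⟩, (hPmono s _ (Finset.subset_insert i s)).trans hi.1.2⟩,
            (Finset.card_le_card (Finset.subset_insert i s)).trans hi.2⟩
          rw [if_pos hne, hdef s, if_pos hCs]
          have e2 : 1 / (A' * Real.log (∏ j ∈ insert i s, p j)) ≤
              1 / (A' * Real.log (∏ j ∈ s, p j)) := by
            apply one_div_le_one_div_of_le (mul_pos hA'0 (hlogC s hCs))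
            exact mul_le_mul_of_nonneg_left (Real.log_le_log (hPpos s)
              (hPmono s _ (Finset.subset_insert i s))) hA'0.le
          linarith
      · rw [hdef, if_neg hi]
        linarith
    rw [h1]
    calc ∑ s : Finset (Fin n) with i ∉ s, h (insert i s) * (g i * ∏ j ∈ s, g j)
        ≤ ∑ s : Finset (Fin n) with i ∉ s, g i *
            (((if Real.log (∏ j ∈ s, p j) < v₀ then 1 / (A' * v₀) else 0) +
            (if s.Nonempty then h s else 0)) * ∏ j ∈ s, g j) := by
          refine Finset.sum_le_sum fun s _ => ?_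
          have := mul_le_mul_of_nonneg_right (h2 s) (mul_pos (hg i) (hGpos s)).le
          refine this.trans (le_of_eq ?_)
          ring
      _ ≤ ∑ s : Finset (Fin n), g i *
            (((if Real.log (∏ j ∈ s, p j) < v₀ then 1 / (A' * v₀) else 0) +
            (if s.Nonempty then h s else 0)) * ∏ j ∈ s, g j) := by
          refine Finset.sum_le_sum_of_subset_of_nonneg (Finset.filter_subset _ _) fun s _ _ => ?_
          refine mul_nonneg (hg i).le (mul_nonneg (add_nonneg ?_ ?_) (hGpos s).le)
          · split_ifs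
            · positivity
            · exact le_rfl
          · split_ifs
            · exact h0 s
            · exact le_rfl
      _ = g i * ((1 / (A' * v₀)) * (∑ s : Finset (Fin n) with Real.log (∏ j ∈ s, p j) < v₀,
            ∏ j ∈ s, g j) + ∑ s : Finset (Fin n) with s.Nonempty, h s * ∏ j ∈ s, g j) := by
          rw [← Finset.mul_sum]
          congr 1
          rw [Finset.mul_sum, Finset.sum_filter, Finset.sum_filter, ← Finset.sum_add_distrib]
          refine Finset.sum_congr rfl fun s _ => ?_
          rw [add_mul]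
          congr 1
          · split_ifs
            · rfl
            · ring
          · split_ifs
            · rfl
            · ring
      _ ≤ g i * (1 + 1) := by
          apply mul_le_mul_of_nonneg_left _ (hg i).le
          rw [hsumC]
          have e1 : (1 / (A' * v₀)) * (∑ s : Finset (Fin n) with Real.log (∏ j ∈ s, p j) < v₀,
            ∏ j ∈ s, g j) ≤ (1 / (A' * v₀)) * (A' * v₀) := by
            apply mul_le_mul_of_nonneg_left _ (by positivity)
            refine (hB.trans hBA).trans ?_
            exact mul_le_mul_of_nonneg_right hAle hv₀.le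
          have e2 : (1 / (A' * v₀)) * (A' * v₀) = 1 := by
            have : A' * v₀ ≠ 0 := (mul_pos hA'0 hv₀).ne'
            field_simp
          linarith
      _ = 2 * g i := by ring
  · have h1 : ∑ s : Finset (Fin n) with s.Nonempty,
        (h s) ^ 2 * (∏ i ∈ s, g i) * Real.log (∏ i ∈ s, p i) = (1 / A') ^ 2 * A' := by
      have h2 : ∑ s : Finset (Fin n) with s.Nonempty,
            (h s) ^ 2 * (∏ i ∈ s, g i) * Real.log (∏ i ∈ s, p i)
          = ∑ s : Finset (Fin n) with C s, (1 / A') ^ 2 *
            ((∏ i ∈ s, g i) / Real.log (∏ i ∈ s, p i)) := by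
        rw [Finset.sum_filter, Finset.sum_filter]
        refine Finset.sum_congr rfl fun s _ => ?_
        rw [hdef]
        by_cases hs : C s
        · rw [if_pos hs.1.1.1, if_pos hs, if_pos hs]
          have := hlogC s hs
          field_simp
        · rw [if_neg hs, if_neg hs]
          simp
      rw [h2, ← Finset.mul_sum]
    rw [h1]
    have h2 : (1 / A') ^ 2 * A' = 1 / A' := by field_simp
    rw [h2]
    exact one_div_le_one_div_of_le hA hAle
  · intro s hs
    rw [hdef] at hs
    by_contra hc
    rw [if_neg (fun h => hc h.2)] at hs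
    exact hs rfl

/-- the sets with many elements carry little weight -/
theorem loss_le (g : Fin n → ℝ) (hg : ∀ i, 0 < g i) (m₀ : ℕ) (G : ℝ) (hG : ∑ i, g i ≤ G) :
    ∑ s : Finset (Fin n) with ¬ s.card ≤ m₀, ∏ i ∈ s, g i ≤ Real.exp (3 * G - m₀) := by
  have h1 : ∀ s : Finset (Fin n), ¬ s.card ≤ m₀ → ∏ i ∈ s, g i ≤
      Real.exp (-(m₀ : ℝ)) * ∏ i ∈ s, (Real.exp 1 * g i) := by
    intro s hs
    have h2 : (m₀ : ℝ) ≤ s.card := by
      have : m₀ ≤ s.card := by omega
      exact_mod_cast this
    have hP : 0 ≤ ∏ i ∈ s, g i := Finset.prod_nonneg fun i _ => (hg i).le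
    rw [Finset.prod_mul_distrib, Finset.prod_const, ← Real.exp_nat_mul, mul_one, ← mul_assoc,
      ← Real.exp_add]
    have h3 : 1 ≤ Real.exp (-(m₀:ℝ) + s.card) := Real.one_le_exp (by linarith)
    nlinarith
  calc ∑ s : Finset (Fin n) with ¬ s.card ≤ m₀, ∏ i ∈ s, g i
      ≤ ∑ s : Finset (Fin n) with ¬ s.card ≤ m₀,
        Real.exp (-(m₀ : ℝ)) * ∏ i ∈ s, (Real.exp 1 * g i) :=
        Finset.sum_le_sum fun s hs => h1 s (Finset.mem_filter.1 hs).2
    _ ≤ ∑ s : Finset (Fin n), Real.exp (-(m₀ : ℝ)) * ∏ i ∈ s, (Real.exp 1 * g i) := by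
        apply Finset.sum_le_sum_of_subset_of_nonneg (Finset.filter_subset _ _)
        intro s _ _
        apply mul_nonneg (Real.exp_pos _).le
        exact Finset.prod_nonneg fun i _ => mul_nonneg (Real.exp_pos _).le (hg i).le
    _ = Real.exp (-(m₀ : ℝ)) * ∏ i, (1 + Real.exp 1 * g i) := by
        rw [← Finset.mul_sum]
        congr 1
        rw [Finset.prod_one_add]
        simp
    _ ≤ Real.exp (-(m₀ : ℝ)) * Real.exp (3 * G) := by
        apply mul_le_mul_of_nonneg_left _ (Real.exp_pos _).le
        calc ∏ i, (1 + Real.exp 1 * g i) ≤ ∏ i, Real.exp (Real.exp 1 * g i) := by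
              apply Finset.prod_le_prod
              · intro i _
                have := hg i
                positivity
              · intro i _
                rw [add_comm]
                exact Real.add_one_le_exp _
          _ = Real.exp (Real.exp 1 * ∑ i, g i) := by
              rw [← Real.exp_sum, Finset.mul_sum]
          _ ≤ Real.exp (3 * G) := by
              apply Real.exp_le_exp.2
              have h5 := Real.exp_one_lt_d9
              have h6 : 0 ≤ ∑ i, g i := Finset.sum_nonneg fun i _ => (hg i).le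
              nlinarith
    _ = _ := by rw [← Real.exp_add]; congr 1; ring

end Pool.Agent.Y831.RC
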