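import Pool.Agent.Y831.RC.Surv2

set_option autoImplicit false
set_option linter.unusedVariables false

/-! # Choice of the classes for the primes up to `log X / (log log X)^B`: count of the survivors -/

namespace Pool.Agent.Y831.RC

open Finset Pool.Agent.H256R2.SC

open scoped Classical

section
variable {L l l3 l4 c ε ε₁ C n₀ : ℝ}

/-- the sum over the large primes -/
theorem s_largeB {K Y Lx B : ℝ} (hε : 0 < ε) (hε1 : ε ≤ 1 / 4) (hC : 0 ≤ C) (hB : 0 ≤ B)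
    (hK : 16 / ε ≤ K) (hKC : 4 / ε * (|(0:ℝ)| + C) ≤ K) (hKB : 8 * B / ε ≤ K)
    (h4 : K ≤ l4) (h3 : K * l4 ≤ l3) (h2 : K * l3 ≤ l)
    (hY1 : l + 1 ≤ Y) (hY2 : Y ≤ l + 2 * l3) (hLx : Lx = l - B * l3) :
    0 < Lx ∧ Real.log (Y / Lx) + C / Lx ≤ (1 + ε) * ((2 + B) * l3 / l) := by
  have hK1 : 64 ≤ K := by
    have : 64 ≤ 16 / ε := by rw [le_div_iff₀ hε]; linarith
    linarith
  have pl4 : 0 < l4 := by linarith
  have k1 : 64 * l4 ≤ l3 := (mul_le_mul_of_nonneg_right hK1 pl4.le).trans h3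
  have pl3 : 0 < l3 := by linarith
  have k2 : 64 * l3 ≤ l := (mul_le_mul_of_nonneg_right hK1 pl3.le).trans h2
  have pl : 0 < l := by linarith
  have hKl3 : K ≤ l3 := by
    have : K * 1 ≤ K * l4 := mul_le_mul_of_nonneg_left (by linarith) (by linarith)
    linarith
  have hE : C ≤ ε / 4 * l3 := by
    have h7 := hKC.trans hKl3
    rw [abs_zero, zero_add, div_mul_eq_mul_div, div_le_iff₀ hε] at h7
    linarith
  have hB8 : B * l3 ≤ ε / 8 * l := by
    rw [div_le_iff₀ hε] at hKB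
    have h6 : 8 * B * l3 ≤ K * ε * l3 := mul_le_mul_of_nonneg_right hKB pl3.le
    have h7 : ε * (K * l3) ≤ ε * l := mul_le_mul_of_nonneg_left h2 hε.le
    nlinarith
  have hLx1 : (1 - ε / 8) * l ≤ Lx := by
    rw [hLx]
    linarith
  have hLx0 : 0 < Lx := lt_of_lt_of_le (by
    apply mul_pos _ pl
    linarith) hLx1
  refine ⟨hLx0, ?_⟩
  have h9 : Real.log (Y / Lx) ≤ Y / Lx - 1 := Real.log_le_sub_one_of_pos (by
    apply div_pos _ hLx0
    linarith)
  have h10 : Y / Lx - 1 + C / Lx = (Y - Lx + C) / Lx := by field_simp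
  have h11 : Y - Lx + C ≤ (1 + ε / 8) * ((2 + B) * l3) := by
    rw [hLx]
    have : 0 ≤ ε / 8 * (B * l3) := by positivity
    nlinarith
  calc Real.log (Y / Lx) + C / Lx ≤ (Y - Lx + C) / Lx := by linarith
    _ ≤ (1 + ε / 8) * ((2 + B) * l3) / ((1 - ε / 8) * l) := by
        apply div_le_div₀ (by positivity) h11 (by
          apply mul_pos _ pl
          linarith) hLx1
    _ = ((1 + ε / 8) / (1 - ε / 8)) * ((2 + B) * l3 / l) := by
        have : 1 - ε / 8 ≠ 0 := by linarith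
        field_simp
    _ ≤ (1 + ε) * ((2 + B) * l3 / l) := by
        apply mul_le_mul_of_nonneg_right _ (by positivity)
        rw [div_le_iff₀ (by linarith)]
        nlinarith

end

/-- the final numerical inequality -/
theorem s_finB {D l l3 l4 L c b ε κ₀ Z N R W₁ W E n₀ : ℝ} (hD : 0 ≤ D) (hε : 0 < ε)
    (hε1 : ε ≤ 1 / 4) (pL : 0 < L) (pl : 0 < l) (pl3 : 0 < l3)
    (pl4 : 0 < l4) (hc : 0 < c) (hb : 0 < b) (hκ : (1 + 10 * ε) * (D * b * c) ≤ κ₀)
    (hZ : Z = (1 - ε) * l * l4 / l3) (hN0 : 0 ≤ N) (hN : N ≤ n₀)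
    (hn : n₀ = c * (L * l ^ 2 * l4 / l3 ^ 2))
    (hR : R ≤ N * ((1 + 2 * ε) * (D * l3 / l))) (hR0 : 0 ≤ R) (hW : 0 < W) (hE0 : 0 ≤ E)
    (hE : E ≤ 1 + ε) (hW₁ : W₁ ≤ W * (b * l / Z) * E) (hW₁0 : 0 ≤ W₁) :
    R * W₁ ≤ κ₀ * (L * l * W) := by
  have h1ε : 0 < 1 - ε := by linarith
  have hZ0 : 0 < Z := by rw [hZ]; positivity
  have h1 : R ≤ n₀ * ((1 + 2 * ε) * (D * l3 / l)) :=
    hR.trans (mul_le_mul_of_nonneg_right hN (by positivity))
  have h2 : W₁ ≤ W * (b * l / Z) * (1 + ε) :=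
    hW₁.trans (mul_le_mul_of_nonneg_left hE (by positivity))
  have hn0 : 0 ≤ n₀ := hN0.trans hN
  have h3 : R * W₁ ≤ n₀ * ((1 + 2 * ε) * (D * l3 / l)) * (W * (b * l / Z) * (1 + ε)) :=
    mul_le_mul h1 h2 hW₁0 (by positivity)
  refine h3.trans ?_
  have h4 : n₀ * ((1 + 2 * ε) * (D * l3 / l)) * (W * (b * l / Z) * (1 + ε)) =
      (((1 + 2 * ε) * (1 + ε) / (1 - ε)) * (D * b * c)) * (L * l * W) := by
    rw [hn, hZ]
    field_simp
  rw [h4]
  apply mul_le_mul_of_nonneg_right _ (by positivity)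
  refine le_trans ?_ hκ
  apply mul_le_mul_of_nonneg_right _ (by positivity)
  rw [div_le_iff₀ h1ε]
  nlinarith

/-- choice of the classes for the primes up to `log X / (log log X)^B` -/
theorem survB (B b c κ₀ : ℝ) (hB : 0 ≤ B) (hb1 : 1 ≤ b) (hb2 : b ≤ 2) (hc : 0 < c)
    (hκ : (2 + B) * b * c < κ₀) : ∃ X₀ : ℝ, ∀ X : ℝ, X₀ ≤ X →
    ∃ a : ℕ → ℕ, (∀ p : ℕ, p.Prime → (p : ℝ) ≤ Real.log X / (Real.log (Real.log X)) ^ B →
      a p < p) ∧
      ∀ N : ℕ, (N : ℝ) ≤ c * ff X →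
      (((Finset.Icc 1 N).filter (fun k => ∀ p : ℕ, p.Prime →
        (p : ℝ) ≤ Real.log X / (Real.log (Real.log X)) ^ B → ¬ k ≡ a p [MOD p])).card : ℝ) ≤
      κ₀ * (Real.log X * Real.log (Real.log X) * WW ((Real.log X) ^ b)) := by
  have hbc : 0 < (2 + B) * b * c := by positivity
  -- choice of ε
  obtain ⟨ε, hε, hε1, hεκ⟩ : ∃ ε : ℝ, 0 < ε ∧ ε ≤ 1 / 4 ∧ (1 + 10 * ε) * ((2 + B) * b * c) ≤ κ₀ := by
    refine ⟨min (1 / 4) ((κ₀ - ((2 + B) * b * c)) / (10 * ((2 + B) * b * c))), ?_, min_le_left _ _, ?_⟩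
    · apply lt_min (by norm_num)
      apply div_pos (by linarith) (by positivity)
    · have h1 : min (1 / 4) ((κ₀ - ((2 + B) * b * c)) / (10 * ((2 + B) * b * c))) ≤
        (κ₀ - ((2 + B) * b * c)) / (10 * ((2 + B) * b * c)) := min_le_right _ _
      have h2 : (1 + 10 * min (1 / 4) ((κ₀ - ((2 + B) * b * c)) / (10 * ((2 + B) * b * c)))) * ((2 + B) * b * c) ≤
        (1 + 10 * ((κ₀ - ((2 + B) * b * c)) / (10 * ((2 + B) * b * c)))) * ((2 + B) * b * c) := by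
        apply mul_le_mul_of_nonneg_right _ hbc.le
        linarith
      refine h2.trans (le_of_eq ?_)
      field_simp
      ring
  obtain ⟨C₁, hC₁, hSR⟩ := sum_ratio
  obtain ⟨C₂, hC₂, hWR⟩ := WW_ratio
  obtain ⟨K₁, hK₁⟩ := smooth_sharp (ε / 2) (by positivity) (by linarith)
  set K : ℝ := max (max (16 / ε) (10 * |Real.log c|)) (max (max (4 / ε * (|(0:ℝ)| + C₁)) K₁)
    (max (max (2 * C₂ / ε) (1600 / ε)) (max (8 * B / ε) (4 * B)))) with hK
  have kk1 : 16 / ε ≤ K := (le_max_left _ _).trans (le_max_left _ _)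
  have kk2 : 10 * |Real.log c| ≤ K := (le_max_right _ _).trans (le_max_left _ _)
  have kk3 : 4 / ε * (|(0:ℝ)| + C₁) ≤ K :=
    (le_max_left _ _).trans ((le_max_left _ _).trans (le_max_right _ _))
  have kk4 : K₁ ≤ K := (le_max_right _ _).trans ((le_max_left _ _).trans (le_max_right _ _))
  have kk5 : 2 * C₂ / ε ≤ K := (le_max_left _ _).trans ((le_max_left _ _).trans
    ((le_max_right _ _).trans (le_max_right _ _)))
  have kk6 : 1600 / ε ≤ K := (le_max_right _ _).trans ((le_max_left _ _).trans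
    ((le_max_right _ _).trans (le_max_right _ _)))
  have kk7 : 8 * B / ε ≤ K := (le_max_left _ _).trans ((le_max_right _ _).trans
    ((le_max_right _ _).trans (le_max_right _ _)))
  have kk8 : 4 * B ≤ K := (le_max_right _ _).trans ((le_max_right _ _).trans
    ((le_max_right _ _).trans (le_max_right _ _)))
  clear_value K
  obtain ⟨X₀, hX₀⟩ := ev4 K
  refine ⟨X₀, fun X hX => ?_⟩
  obtain ⟨hX1, m4, m5, m3, m2, m1⟩ := hX₀ X hX
  have hff : ff X = Real.log X * (Real.log (Real.log X)) ^ 2 *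
    Real.log (Real.log (Real.log (Real.log X))) / (Real.log (Real.log (Real.log X))) ^ 2 := rfl
  rw [hff]
  clear hX hX₀ hff hX1
  generalize Real.log X = L at *
  obtain ⟨l, hl⟩ : ∃ l, l = Real.log L := ⟨_, rfl⟩
  rw [← hl] at m4 m5 m3 m2 m1 ⊢
  obtain ⟨l3, hl3⟩ : ∃ l3, l3 = Real.log l := ⟨_, rfl⟩
  rw [← hl3] at m4 m5 m3 m2 ⊢
  obtain ⟨l4, hl4⟩ : ∃ l4, l4 = Real.log l3 := ⟨_, rfl⟩
  rw [← hl4] at m4 m5 m3 ⊢
  have hK64 : 6400 ≤ K := by
    have : 6400 ≤ 1600 / ε := by rw [le_div_iff₀ hε]; linarith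
    linarith
  obtain ⟨a4, a3, a2, a1⟩ := s_pos (by linarith : 1 ≤ K) m4 m3 m2 m1
  have pl4 : 0 < l4 := by linarith
  have pl3 : 0 < l3 := by linarith
  have pl : 0 < l := by linarith
  have pL : 0 < L := by linarith
  obtain ⟨n₀, hn⟩ : ∃ n₀, n₀ = c * (L * l ^ 2 * l4 / l3 ^ 2) := ⟨_, rfl⟩
  rw [← hn]
  obtain ⟨n2, n3, n4, n5⟩ := s_N pL hl hl3 hl4 (by linarith) kk2 m4 m5 m3 m2 m1 hc hn
  set N₀ : ℕ := ⌊n₀⌋₊ with hN₀
  have hN₀le : (N₀ : ℝ) ≤ n₀ := Nat.floor_le (by linarith)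
  have hN₀pos : (0:ℝ) < N₀ := by linarith
  obtain ⟨Z, hZ⟩ : ∃ Z, Z = (1 - ε) * l * l4 / l3 := ⟨_, rfl⟩
  obtain ⟨u, hu⟩ : ∃ u, u = Real.log (N₀ : ℝ) / Z := ⟨_, rfl⟩
  obtain ⟨hZ0, hu1, hu2, hu3⟩ := s_u hε hε1 hl4 kk1 m4 m5 m3 m2 (by linarith) n4 hZ hu
  have hKl3l4 : K ≤ l3 / l4 := by
    rw [le_div_iff₀ pl4]
    exact m3
  have hKu : K ≤ u := hKl3l4.trans hu1
  have hu0 : 0 < u := by linarith
  have hNu : (N₀ : ℝ) = Real.exp (u * Z) := by
    rw [hu, div_mul_cancel₀ _ hZ0.ne', Real.exp_log hN₀pos]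
  -- lower bound for Z
  have hZK : K / 2 * l4 ≤ Z := by
    rw [hZ, le_div_iff₀ pl3]
    have h1 : K * l3 ≤ l := m2
    have h2 : 1 / 2 * l ≤ (1 - ε) * l := by
      apply mul_le_mul_of_nonneg_right _ pl.le
      linarith
    calc K / 2 * l4 * l3 = 1 / 2 * (K * l3) * l4 := by ring
      _ ≤ 1 / 2 * l * l4 := by
          apply mul_le_mul_of_nonneg_right _ pl4.le
          linarith
      _ ≤ (1 - ε) * l * l4 := mul_le_mul_of_nonneg_right h2 pl4.le
  have hZK' : K ≤ Z := by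
    have h1 : K / 2 * 2 ≤ K / 2 * l4 := mul_le_mul_of_nonneg_left (by linarith) (by linarith)
    linarith
  have hZl : Z ≤ l := by
    rw [hZ, div_le_iff₀ pl3]
    have h1 : (1 - ε) * l ≤ l := h_a hε pl.le
    calc (1 - ε) * l * l4 ≤ l * l4 := mul_le_mul_of_nonneg_right h1 pl4.le
      _ ≤ l * l3 := mul_le_mul_of_nonneg_left a3 pl.le
  have hulogu : l3 ≤ u * Real.log u := by
    have : l3 ≤ (1 + ε / 2) * l3 := h_b hε pl3.le
    linarith
  have hlogu : Real.log u ≤ ε / 2 / 200 * Z := by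
    have h1 : Real.log u ≤ Real.log (2 * l3) := Real.log_le_log hu0 hu2
    have h2 : Real.log (2 * l3) = Real.log 2 + l4 := by
      rw [Real.log_mul (by norm_num) pl3.ne', ← hl4]
    have h3 := Real.log_two_lt_d9
    have h4 : ε / 2 / 200 * (K / 2 * l4) ≤ ε / 2 / 200 * Z :=
      mul_le_mul_of_nonneg_left hZK (by positivity)
    have h5 : 2 ≤ ε / 2 / 200 * (K / 2) := by
      rw [div_le_iff₀ hε] at kk6
      exact h_c hε kk6
    have h6 : 2 * l4 ≤ ε / 2 / 200 * (K / 2) * l4 := mul_le_mul_of_nonneg_right h5 pl4.le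
    have h7 : ε / 2 / 200 * (K / 2 * l4) = ε / 2 / 200 * (K / 2) * l4 := by ring
    linarith
  have hlogZ : Real.log Z ≤ 3 * (u * Real.log u) := by
    have h1 : Real.log Z ≤ Real.log l := Real.log_le_log hZ0 hZl
    rw [← hl3] at h1
    linarith
  have hsm := hK₁ N₀ (Real.exp Z) u Z rfl hNu (kk4.trans hZK') (kk4.trans hKu) hlogu hlogZ
  -- the smooth numbers are few
  have hsm2 : (((Finset.Icc 1 N₀).filter (fun n => ∀ p : ℕ, p.Prime → p ∣ n →
      (p : ℝ) ≤ Real.exp Z)).card : ℝ) ≤ N₀ * (3 / l) := by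
    refine hsm.trans ?_
    have h1 : Real.exp (-((1 - ε / 2 / 2) * (u * Real.log u))) ≤ 1 / l := by
      have h2 : l3 ≤ (1 - ε / 2 / 2) * (u * Real.log u) := by
        have h3 : (1 - ε / 4) * ((1 + ε / 2) * l3) ≤ (1 - ε / 2 / 2) * (u * Real.log u) := by
          have : 1 - ε / 2 / 2 = 1 - ε / 4 := by ring
          rw [this]
          exact mul_le_mul_of_nonneg_left hu3 (by linarith)
        have h4 : l3 ≤ (1 - ε / 4) * ((1 + ε / 2) * l3) := h_d hε hε1 pl3.le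
        linarith
      calc Real.exp (-((1 - ε / 2 / 2) * (u * Real.log u))) ≤ Real.exp (-l3) :=
            Real.exp_le_exp.2 (by linarith)
        _ = 1 / l := by rw [Real.exp_neg, hl3, Real.exp_log pl, one_div]
    calc 3 * ((N₀ : ℝ) * Real.exp (-((1 - ε / 2 / 2) * (u * Real.log u)))) ≤ 3 * (N₀ * (1 / l)) := by
          apply mul_le_mul_of_nonneg_left _ (by norm_num)
          exact mul_le_mul_of_nonneg_left h1 hN₀pos.le
      _ = N₀ * (3 / l) := by ring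
  -- the large primes
  obtain ⟨x, hx⟩ : ∃ x, x = L / l ^ B := ⟨_, rfl⟩
  have hlB : 1 ≤ l ^ B := Real.one_le_rpow (by linarith) hB
  have hxpos : 0 < x := by rw [hx]; positivity
  have hlogx : Real.log x = l - B * l3 := by
    rw [hx, Real.log_div pL.ne' (by positivity), Real.log_rpow pl, ← hl, ← hl3]
  have hBl3 : B * l3 ≤ l / 4 := by
    have h1 : 4 * B * l3 ≤ K * l3 := mul_le_mul_of_nonneg_right kk8 pl3.le
    linarith
  obtain ⟨hLx0, hLx⟩ := s_largeB (K := K) (Y := Real.log (N₀ : ℝ)) (Lx := Real.log x) (B := B)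
    hε hε1 hC₁ hB kk1 kk3 kk7 m4 m3 m2 n3 n4 hlogx
  have hx2 : 2 ≤ x := by
    have h1 : 1 ≤ Real.log x := by
      rw [hlogx]
      linarith
    have h2 : Real.exp 1 ≤ x := by
      rw [← Real.exp_log hxpos]
      exact Real.exp_le_exp.2 h1
    have h3 := Real.add_one_le_exp (1:ℝ)
    linarith
  have hxN : x ≤ N₀ := by
    refine le_trans ?_ n5
    rw [hx]
    exact div_le_self pL.le hlB
  have hsr := hSR x (N₀ : ℝ) hx2 hxN
  rw [Nat.floor_natCast] at hsr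
  have hlp : ∑ p ∈ (Finset.Ioc ⌊x⌋₊ N₀).filter Nat.Prime, (1 : ℝ) / p ≤ (1 + ε) * ((2 + B) * l3 / l) :=
    hsr.trans hLx
  set R : Finset ℕ := (Finset.Icc 1 N₀).filter (fun k => ∀ p : ℕ, p.Prime → Real.exp Z < p →
    (p : ℝ) ≤ x → ¬ p ∣ k) with hR
  have hRcard : (R.card : ℝ) ≤ N₀ * ((1 + 2 * ε) * ((2 + B) * l3 / l)) := by
    have h1 := card_U0 N₀ (Real.exp Z) x (by linarith)
    have h2 : (N₀ : ℝ) * ∑ p ∈ (Finset.Ioc ⌊x⌋₊ N₀).filter Nat.Prime, (1 : ℝ) / p ≤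
        N₀ * ((1 + ε) * ((2 + B) * l3 / l)) := mul_le_mul_of_nonneg_left hlp hN₀pos.le
    have h3 : (N₀ : ℝ) * (3 / l) ≤ N₀ * (ε * ((2 + B) * l3 / l)) := by
      apply mul_le_mul_of_nonneg_left _ hN₀pos.le
      rw [← mul_div_assoc]
      apply div_le_div_of_nonneg_right _ pl.le
      have h4 : 16 / ε ≤ l3 := by linarith [kk1, m4, a3]
      rw [div_le_iff₀ hε] at h4
      have h5 : 0 ≤ ε * (B * l3) := by positivity
      nlinarith
    have h5 : (N₀ : ℝ) * ((1 + 2 * ε) * ((2 + B) * l3 / l)) = N₀ * ((1 + ε) * ((2 + B) * l3 / l)) +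
        N₀ * (ε * ((2 + B) * l3 / l)) := by ring
    rw [h5]
    linarith
  -- the greedy classes
  set S₂ : Finset ℕ := (Finset.Icc 1 ⌊Real.exp Z⌋₊).filter Nat.Prime with hS₂
  obtain ⟨g, hg1, hg2⟩ := greedy_all S₂ (fun p hp => (Finset.mem_filter.1 hp).2) R
  refine ⟨fun p => if (p : ℝ) ≤ Real.exp Z then g p else 0, ?_, ?_⟩
  · intro p hp _
    by_cases h : (p : ℝ) ≤ Real.exp Z
    · simp only [if_pos h]
      apply hg1
      rw [hS₂, Finset.mem_filter, Finset.mem_Icc]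
      exact ⟨⟨hp.one_lt.le, Nat.le_floor h⟩, hp⟩
    · simp only [if_neg h]
      exact hp.pos
  · intro N hN
    have hNN₀ : N ≤ N₀ := by
      rw [hN₀]
      exact Nat.le_floor hN
    have hzx : Real.exp Z ≤ x := by
      rw [← Real.exp_log (show 0 < x by linarith), hlogx]
      apply Real.exp_le_exp.2
      have h1 : Z ≤ l / 2 := by
        rw [hZ, div_le_iff₀ pl3]
        have h2 : (1 - ε) * l ≤ l := h_a hε pl.le
        have h3 : 2 * l4 ≤ l3 := by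
          have : 2 * l4 ≤ K * l4 := mul_le_mul_of_nonneg_right (by linarith) pl4.le
          linarith
        calc (1 - ε) * l * l4 ≤ l * l4 := mul_le_mul_of_nonneg_right h2 pl4.le
          _ ≤ l / 2 * l3 := h_f pl.le h3
      linarith
    have hsub : (Finset.Icc 1 N).filter (fun k => ∀ p : ℕ, p.Prime → (p : ℝ) ≤ x →
        ¬ k ≡ (if (p : ℝ) ≤ Real.exp Z then g p else 0) [MOD p]) ⊆
        R.filter (fun k => ∀ p ∈ S₂, ¬ k ≡ g p [MOD p]) := by
      intro k hk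
      rw [Finset.mem_filter, Finset.mem_Icc] at hk
      rw [Finset.mem_filter, hR, Finset.mem_filter, Finset.mem_Icc]
      refine ⟨⟨⟨hk.1.1, hk.1.2.trans hNN₀⟩, ?_⟩, ?_⟩
      · intro p hp hpz hpx hpk
        have h1 := hk.2 p hp hpx
        rw [if_neg (not_le.2 hpz)] at h1
        exact h1 ((Nat.modEq_zero_iff_dvd).2 hpk)
      · intro p hp
        rw [hS₂, Finset.mem_filter, Finset.mem_Icc] at hp
        have hpz : (p : ℝ) ≤ Real.exp Z := (Nat.le_floor_iff (Real.exp_pos _).le).1 hp.1.2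
        have h1 := hk.2 p hp.2 (hpz.trans hzx)
        rwa [if_pos hpz] at h1
    have h1 : (((Finset.Icc 1 N).filter (fun k => ∀ p : ℕ, p.Prime → (p : ℝ) ≤ x →
        ¬ k ≡ (if (p : ℝ) ≤ Real.exp Z then g p else 0) [MOD p])).card : ℝ) ≤
        R.card * ∏ p ∈ S₂, (1 - 1 / (p : ℝ)) := by
      refine le_trans ?_ hg2
      exact_mod_cast Finset.card_le_card hsub
    rw [← hx]
    refine h1.trans ?_
    have hWW : ∏ p ∈ S₂, (1 - 1 / (p : ℝ)) = WW (Real.exp Z) := rfl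
    rw [hWW]
    have hLb : Real.log (L ^ b) = b * l := by rw [Real.log_rpow pL, ← hl]
    have hz2 : 2 ≤ Real.exp Z := by
      have := Real.add_one_le_exp Z
      linarith
    have hzL : Real.exp Z ≤ L ^ b := by
      rw [← Real.exp_log (show 0 < L ^ b from Real.rpow_pos_of_pos pL _), hLb]
      apply Real.exp_le_exp.2
      exact h_g hb1 pl.le hZl
    have h2 := hWR (Real.exp Z) (L ^ b) hz2 hzL
    rw [hLb, Real.log_exp] at h2
    have hE : Real.exp (C₂ / Z) ≤ 1 + ε := by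
      -- C₂/Z ≤ ε/2
      have h3 : C₂ / Z ≤ ε / 2 := by
        rw [div_le_iff₀ hZ0]
        rw [div_le_iff₀ hε] at kk5
        have h4 : ε / 2 * K ≤ ε / 2 * Z := mul_le_mul_of_nonneg_left hZK' (by positivity)
        exact h_h hε kk5 h4
      have h5 := Real.exp_bound_div_one_sub_of_interval (x := C₂ / Z) (by positivity) (by linarith)
      exact h5.trans (h_i hε hε1 h3 (by positivity))
    exact s_finB (by linarith : (0:ℝ) ≤ 2 + B) hε hε1 pL pl pl3 pl4 hc (by linarith) hεκ hZ hN₀pos.le hN₀le hn hRcard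
      (Nat.cast_nonneg _) (WW_pos _) (Real.exp_pos _).le hE h2 (WW_pos _).le

end Pool.Agent.Y831.RC
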