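import Pool.Agent.Y831.RC3.CovD
import Pool.Agent.Y831.RC3.SurvB
import Pool.Agent.Y831.RC.Run

set_option autoImplicit false
set_option linter.unusedVariables false

/-! # Many runs of integers with small prime factors -/

namespace Pool.Agent.Y831.RC

open Finset Pool.Agent.H256R2.SC

open scoped Classical

/-- the integers `n` in `[M, M + X - F]` such that all `n + k`, `1 ≤ k ≤ F`, have a prime factor
at most `y` -/
def RunSet (M X F y : ℝ) : Set ℤ :=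
  {n : ℤ | M ≤ n ∧ (n : ℝ) + F ≤ M + X ∧
    ∀ k : ℕ, 1 ≤ k → (k : ℝ) ≤ F → ∃ p : ℕ, p.Prime ∧ (p : ℝ) ≤ y ∧ (p : ℤ) ∣ n + k}

theorem RunSet_finite (M X F y : ℝ) (hF : 0 ≤ F) : (RunSet M X F y).Finite := by
  apply (Set.finite_Icc ⌈M⌉ ⌊M + X⌋).subset
  rintro n ⟨h1, h2, _⟩
  refine ⟨Int.ceil_le.2 h1, Int.le_floor.2 ?_⟩
  linarith

theorem RunSet_mono (M X F y y' : ℝ) (hF : 0 ≤ F) (hy : y ≤ y') :
    (RunSet M X F y).ncard ≤ (RunSet M X F y').ncard := by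
  apply Set.ncard_le_ncard _ (RunSet_finite M X F y' hF)
  rintro n ⟨h1, h2, h3⟩
  refine ⟨h1, h2, fun k hk1 hk2 => ?_⟩
  obtain ⟨p, hp, hp1, hp2⟩ := h3 k hk1 hk2
  exact ⟨p, hp, hp1.trans hy, hp2⟩

/-- the arithmetic core -/
theorem run_cnt {w X δ ε τ x F : ℝ} {a : ℕ → ℕ} (hcov : CovCnt w X δ ε τ) (hx0 : 0 ≤ x)
    (hxw : x ≤ w) (ha : ∀ p : ℕ, p.Prime → (p : ℝ) ≤ x → a p < p) (hF0 : 0 ≤ F) (hFw : F ≤ w)
    (hU : (((Finset.Icc 1 ⌊F⌋₊).filter (fun k => ∀ p : ℕ, p.Prime → (p : ℝ) ≤ x →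
        ¬ k ≡ a p [MOD p])).card : ℝ) ≤
      (1 / 2 - ε) * (Real.log X * Real.log (Real.log X) * WW w))
    (M : ℝ) (hlen : X ^ (1 - δ) ≤ (X - F) / (primorial ⌊x⌋₊ : ℝ) - 1) (hxδ : x ≤ X ^ δ) :
    ((X - F) / (primorial ⌊x⌋₊ : ℝ) - 1) * Real.exp (-τ) ≤ ((RunSet M X F (X ^ δ)).ncard : ℝ) := by
  set P : ℕ := primorial ⌊x⌋₊ with hPdef
  have hPpos : 0 < P := primorial_pos _
  have hPr : (0 : ℝ) < P := by exact_mod_cast hPpos
  obtain ⟨b0, hb0, hb0'⟩ := LG.exists_crt ⌊x⌋₊ (fun p => p - a p)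
  have hfloor : ∀ p : ℕ, p ≤ ⌊x⌋₊ ↔ (p : ℝ) ≤ x := fun p => Nat.le_floor_iff hx0
  have hdvdP : ∀ p : ℕ, p.Prime → (p : ℝ) ≤ x → p ∣ P := fun p hp hpy =>
    (hp.dvd_primorial_iff).2 ((hfloor p).2 hpy)
  have hndvdP : ∀ p : ℕ, p.Prime → w < p → ¬ p ∣ P := by
    intro p hp hpX h
    have := (hfloor p).1 ((hp.dvd_primorial_iff).1 h)
    linarith
  have hb0b : ∀ p : ℕ, p.Prime → (p : ℝ) ≤ x → p ∣ b0 + a p := by
    intro p hp hpy
    have h1 := hb0' p hp ((hfloor p).2 hpy)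
    have h2 := ha p hp hpy
    have h3 : b0 + a p ≡ (p - a p) + a p [MOD p] := h1.add_right _
    rw [Nat.sub_add_cancel h2.le] at h3
    exact (Nat.modEq_zero_iff_dvd).1 (h3.trans (by simp [Nat.ModEq]))
  -- inverses
  have hinv : ∀ p : ℕ, ∃ i : ℤ, p.Prime → ¬ p ∣ P → (p : ℤ) ∣ P * i - 1 := by
    intro p
    by_cases h : p.Prime ∧ ¬ p ∣ P
    · obtain ⟨i, hi⟩ := LG.inv_exists h.1 h.2
      exact ⟨i, fun _ _ => hi⟩
    · exact ⟨0, fun h1 h2 => absurd ⟨h1, h2⟩ h⟩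
  choose ip hip using hinv
  set U : Finset ℕ := (Finset.Icc 1 ⌊F⌋₊).filter (fun k => ∀ p : ℕ, p.Prime → (p : ℝ) ≤ x →
        ¬ k ≡ a p [MOD p]) with hUdef
  set A' : ℤ := ⌊(M - b0) / P⌋ with hA'
  set B' : ℤ := ⌊(M + X - F - b0) / P⌋ with hB'
  have hBA : (X - F) / (P : ℝ) - 1 ≤ (B' : ℝ) - A' := by
    have e1 := Int.floor_le ((M - b0) / P)
    have e2 := Int.lt_floor_add_one ((M + X - F - b0) / P)
    have e3 : (M + X - F - b0) / P = (M - b0) / P + (X - F) / P := by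
      field_simp
      ring
    linarith
  have hcount := hcov U (by simpa using hU)
    (fun p k => -((b0 : ℤ) + ((k : ℕ) : ℤ)) * ip p) (by
      intro p hp hp1 _ k l hkl hdvd
      have h1 := hip p hp (hndvdP p hp hp1)
      have h2 : (p : ℤ) ∣ ((l : ℕ) : ℤ) - ((k : ℕ) : ℤ) := by
        have h3 : (p : ℤ) ∣ (P : ℤ) * (-((b0 : ℤ) + ((k : ℕ) : ℤ)) * ip p -
            -((b0 : ℤ) + ((l : ℕ) : ℤ)) * ip p) := hdvd.mul_left _
        have h4 : (p : ℤ) ∣ (((l : ℕ) : ℤ) - ((k : ℕ) : ℤ)) * ((P : ℤ) * ip p - 1) := h1.mul_left _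
        have h5 := dvd_sub h3 h4
        have h6 : (P : ℤ) * (-((b0 : ℤ) + ((k : ℕ) : ℤ)) * ip p -
            -((b0 : ℤ) + ((l : ℕ) : ℤ)) * ip p) -
            (((l : ℕ) : ℤ) - ((k : ℕ) : ℤ)) * ((P : ℤ) * ip p - 1) =
            ((l : ℕ) : ℤ) - ((k : ℕ) : ℤ) := by ring
        rwa [h6] at h5
      have hk := mem_Icc.1 (mem_filter.1 k.2).1
      have hl := mem_Icc.1 (mem_filter.1 l.2).1
      have hpL : ⌊F⌋₊ < p := by
        have : (⌊F⌋₊ : ℝ) < p := lt_of_le_of_lt ((Nat.floor_le hF0).trans hFw) hp1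
        exact_mod_cast this
      have h7 : ((l : ℕ) : ℤ) - ((k : ℕ) : ℤ) = 0 := by
        apply Int.eq_zero_of_abs_lt_dvd h2
        rw [abs_lt]
        constructor <;> omega
      apply hkl
      apply Subtype.ext
      omega)
    A' B' (hlen.trans hBA)
  set S : Finset ℤ := (Ioc A' B').filter (fun x : ℤ => ∀ k : U,
      ∃ p : ℕ, p.Prime ∧ w < p ∧ (p : ℝ) ≤ X ^ δ ∧
        (p : ℤ) ∣ x - -((b0 : ℤ) + ((k : ℕ) : ℤ)) * ip p) with hS
  have hsub : ((S.image (fun m : ℤ => (b0 : ℤ) + P * m) : Finset ℤ) : Set ℤ) ⊆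
      RunSet M X F (X ^ δ) := by
    intro n hn
    rw [Finset.mem_coe, Finset.mem_image] at hn
    obtain ⟨m, hm, rfl⟩ := hn
    rw [hS, Finset.mem_filter, Finset.mem_Ioc] at hm
    obtain ⟨⟨hmA, hmB⟩, hm⟩ := hm
    have hm1 : (M - b0) / P < m := by
      have := Int.lt_floor_add_one ((M - b0) / P)
      have h2 : ((⌊(M - b0) / P⌋ : ℤ) : ℝ) + 1 ≤ m := by exact_mod_cast hmA
      linarith
    have hm2 : (m : ℝ) ≤ (M + X - F - b0) / P := by
      have := Int.floor_le ((M + X - F - b0) / P)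
      have h2 : (m : ℝ) ≤ ((⌊(M + X - F - b0) / P⌋ : ℤ) : ℝ) := by exact_mod_cast hmB
      linarith
    rw [div_lt_iff₀ hPr] at hm1
    rw [le_div_iff₀ hPr] at hm2
    refine ⟨?_, ?_, ?_⟩
    · push_cast
      linarith
    · push_cast
      linarith
    · intro k hk1 hkL
      have hkN : k ≤ ⌊F⌋₊ := Nat.le_floor hkL
      by_cases hkU : k ∈ U
      · obtain ⟨p, hp, hp1, hp2, hp3⟩ := hm ⟨k, hkU⟩
        refine ⟨p, hp, hp2, ?_⟩
        have h1 := hip p hp (hndvdP p hp hp1)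
        have h3 := hp3.mul_left (P : ℤ)
        have h4 := h1.mul_left ((b0 : ℤ) + (k : ℤ))
        have h5 := dvd_sub h3 h4
        have h6 : (P : ℤ) * ((m : ℤ) - -((b0 : ℤ) + (k : ℤ)) * ip p) -
            ((b0 : ℤ) + (k : ℤ)) * ((P : ℤ) * ip p - 1) = (b0 : ℤ) + P * m + k := by
          ring
        rwa [← h6]
      · have hkU' : ¬ ∀ p : ℕ, p.Prime → (p : ℝ) ≤ x → ¬ k ≡ a p [MOD p] := fun h =>
          hkU (mem_filter.2 ⟨mem_Icc.2 ⟨hk1, hkN⟩, h⟩)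
        push Not at hkU'
        obtain ⟨p, hp, hpy, hkp⟩ := hkU'
        refine ⟨p, hp, hpy.trans hxδ, ?_⟩
        have h1 : b0 + k ≡ b0 + a p [MOD p] := hkp.add_left _
        have h2 : p ∣ b0 + k := (Nat.modEq_zero_iff_dvd).1
          (h1.trans ((Nat.modEq_zero_iff_dvd).2 (hb0b p hp hpy)))
        have h3 : (p : ℤ) ∣ (P : ℤ) * m := Dvd.dvd.mul_right (by exact_mod_cast hdvdP p hp hpy) _
        have h4 : (p : ℤ) ∣ (b0 : ℤ) + k := by exact_mod_cast h2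
        have h5 : (b0 : ℤ) + P * m + k = ((b0 : ℤ) + k) + P * m := by ring
        rw [h5]
        exact dvd_add h4 h3
  have hinj : (S.image (fun m : ℤ => (b0 : ℤ) + P * m)).card = S.card := by
    apply Finset.card_image_of_injective
    intro m m' h
    have hP0 : (P : ℤ) ≠ 0 := by exact_mod_cast hPpos.ne'
    have h2 : (P : ℤ) * m = P * m' := by
      have : (b0 : ℤ) + P * m = b0 + P * m' := h
      linarith
    exact mul_left_cancel₀ hP0 h2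
  have hcard : (S.card : ℝ) ≤ ((RunSet M X F (X ^ δ)).ncard : ℝ) := by
    have h1 := Set.ncard_le_ncard hsub (RunSet_finite M X F (X ^ δ) hF0)
    rw [Set.ncard_coe_finset, hinj] at h1
    exact_mod_cast h1
  refine le_trans ?_ (hcount.trans hcard)
  exact mul_le_mul_of_nonneg_right hBA (Real.exp_pos _).le

end Pool.Agent.Y831.RC
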